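import Mathlib
import Pool.Agent.W964.Wd.Gen.Main

/-!
The satisfiability of CNF formulas and parallel machines with bits as input words.
-/

set_option linter.unusedSectionVars false

namespace Pool.Agent.W964.Wd

open Finset H568R2 H592R3 SmallDepth Pool.Agent.W964.Pram

lemma One.of_junta {I : Type} {f : (I → Bool) → Bool} (h : Junta 1 f) : One f := by
  obtain ⟨A, hA, hd⟩ := h
  rcases Nat.lt_or_ge 0 A.card with hc | hc
  · have h1 : A.card = 1 := by omega
    obtain ⟨i, hi⟩ := Finset.card_eq_one.1 h1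
    refine Or.inr ⟨i, fun b => f (fun _ => b), fun x => ?_⟩
    apply hd
    intro j hj
    rw [hi, Finset.mem_singleton] at hj
    rw [hj]
  · have h1 : A = ∅ := Finset.card_eq_zero.1 (by omega)
    refine Or.inl ⟨f (fun _ => true), fun x => ?_⟩
    apply hd
    intro j hj
    rw [h1] at hj
    exact absurd hj (Finset.notMem_empty _)

/-- Randomized parallel machines fail on some formula. -/
theorem sat_rand_wd (ε : ℝ) (hε : 0 < ε) (K : ℕ) : ∃ C : ℝ, 0 < C ∧
    ∀ n T w M : ℕ, 2 ≤ n → 1 ≤ T → C * (T * Real.log n) ≤ w → w ≤ n → n * 2 ^ w ≤ M →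
    ∀ (P : ℕ) (R : RandMachine Bool (Fin M × Fin n × Bool) P),
      (P : ℝ) ≤ 2 ^ ((1 - ε) * n) → R.Lists (2 ^ (K * n)) →
      ∃ x, WidthLe x w ∧
        R.success T x (∃ α, Models x α) ≤ 1 / 2 + (2 : ℝ) ^ (-((w : ℝ) / C)) := by
  obtain ⟨Q, hQ6, C, hC, H⟩ := gen_rand ε hε K
  refine ⟨C, hC, ?_⟩
  intro n T w M hn hT hw hwn hM P R hP hR
  obtain ⟨b, m', hb, hm', hBw, hQn, s, hs, H2⟩ := H n T w hn hT hw hwn
  obtain ⟨σ, hσ, hσw, hσs⟩ := H592R3.MbU.enc Q (3 * T) b m' n w M hQ6 (by omega) hb hm' hn hBw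
    hQn hM s
  obtain ⟨X, hX⟩ := H2 Bool (Fin M × Fin n × Bool) σ (fun j => One.of_junta (hσ j)) P R hP hR
  refine ⟨σ X, hσw X, ?_⟩
  have h1 : (∃ α, Models (σ X) α) = Sat s X := propext (hσs X)
  rw [h1]
  exact hX

end Pool.Agent.W964.Wd
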