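import Mathlib

/-!
The choice of the parameters for constant sizes.
-/

namespace Pool.Agent.W964.Wd

lemma params (ε : ℝ) (hε : 0 < ε) (K s : ℕ) : ∃ δ : ℝ, 0 < δ ∧ ∃ n₀ : ℕ, ∀ n T : ℕ, n₀ ≤ n →
    1 ≤ T → T * Real.log (Real.log n) ≤ δ * Real.log n →
    ∃ l A : ℕ, 1 ≤ l ∧ T ≤ 2 ^ l ∧ n ^ K + 3 ≤ 2 ^ l ∧ n ^ K ≤ 2 ^ A ∧
      s ≤ 192 * T * (3 * l + A) * l ∧
      ((192 * T * (3 * l + A) * l : ℕ) : ℝ) ^ (8 * T * s) ≤ (n : ℝ) ^ ε := by
  obtain ⟨cK, hcK⟩ : ∃ cK : ℕ, cK = 192 * (4 * K + 6) * (K + 2) + s := ⟨_, rfl⟩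
  refine ⟨min 1 (ε / (64 * (s + 1))), by positivity, ⌈Real.exp (cK + 3)⌉₊, ?_⟩
  intro n T hn hT hTn
  have hnR : Real.exp (cK + 3) ≤ n := (Nat.le_ceil _).trans (by exact_mod_cast hn)
  have hn0 : (0 : ℝ) < n := (Real.exp_pos _).trans_le hnR
  obtain ⟨u, hu⟩ : ∃ u, u = Real.log n := ⟨_, rfl⟩
  have hu1 : (cK : ℝ) + 3 ≤ u := by
    rw [hu, Real.le_log_iff_exp_le hn0]
    exact hnR
  have hcK0 : (0 : ℝ) ≤ cK := Nat.cast_nonneg _
  have hu3 : 3 ≤ u := by linarith
  have hn1 : 1 ≤ n := by exact_mod_cast (by exact_mod_cast hn0 : 0 < n)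
  rw [← hu] at hTn
  have hlu : 1 ≤ Real.log u := by
    rw [Real.le_log_iff_exp_le (by linarith)]
    have := Real.exp_one_lt_d9
    linarith
  have hTu : (T : ℝ) ≤ u := by
    have h1 : (T : ℝ) * 1 ≤ T * Real.log u := mul_le_mul_of_nonneg_left hlu (Nat.cast_nonneg T)
    have h2 : min 1 (ε / (64 * ((s : ℝ) + 1))) * u ≤ 1 * u :=
      mul_le_mul_of_nonneg_right (min_le_left _ _) (by linarith)
    linarith
  obtain ⟨lam, hlam⟩ : ∃ lam, lam = Nat.log 2 n + 1 := ⟨_, rfl⟩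
  have hnl : n < 2 ^ lam := by rw [hlam]; exact Nat.lt_pow_succ_log_self (by norm_num) n
  have hl2 : Real.log 2 ≤ 1 := by
    have := Real.log_two_lt_d9
    linarith
  have hl2' : 1 / 2 ≤ Real.log 2 := by
    have := Real.log_two_gt_d9
    linarith
  have hul : u ≤ lam := by
    rw [hu]
    have h1 : (n : ℝ) ≤ 2 ^ lam := by exact_mod_cast hnl.le
    have h2 := Real.log_le_log hn0 h1
    rw [Real.log_pow] at h2
    have h3 : (lam : ℝ) * Real.log 2 ≤ lam * 1 := mul_le_mul_of_nonneg_left hl2 (Nat.cast_nonneg _)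
    linarith
  have hlu2 : (lam : ℝ) ≤ 2 * u + 1 := by
    have h1 : 2 ^ Nat.log 2 n ≤ n := Nat.pow_log_le_self 2 (by omega)
    have h2 : ((2 : ℝ) ^ Nat.log 2 n) ≤ n := by exact_mod_cast h1
    have h3 := Real.log_le_log (by positivity) h2
    rw [Real.log_pow, ← hu] at h3
    have h4 : (Nat.log 2 n : ℝ) * (1 / 2) ≤ Nat.log 2 n * Real.log 2 :=
      mul_le_mul_of_nonneg_left hl2' (Nat.cast_nonneg _)
    rw [hlam]
    push_cast
    linarith
  have hlam1 : 1 ≤ lam := by rw [hlam]; omega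
  have hcl : cK ≤ lam := by
    have : (cK : ℝ) ≤ lam := by linarith
    exact_mod_cast this
  have hTl : T ≤ lam := by
    have : (T : ℝ) ≤ lam := by linarith
    exact_mod_cast this
  have hll : ∀ a : ℕ, 1 ≤ a → lam ≤ 2 ^ (a * lam) := by
    intro a ha
    have h1 : lam < 2 ^ lam := Nat.lt_two_pow_self
    have h2 : 2 ^ lam ≤ 2 ^ (a * lam) :=
      Nat.pow_le_pow_right (by norm_num) (Nat.le_mul_of_pos_left _ ha)
    omega
  refine ⟨(K + 2) * lam, K * lam, ?_, ?_, ?_, ?_, ?_, ?_⟩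
  · exact Nat.one_le_iff_ne_zero.2 (by positivity)
  · exact hTl.trans (hll (K + 2) (by omega))
  · calc n ^ K + 3 ≤ (n + 1) ^ K * 4 := by
          have h1 : n ^ K ≤ (n + 1) ^ K := Nat.pow_le_pow_left (by omega) K
          have h2 : 1 ≤ (n + 1) ^ K := Nat.one_le_pow _ _ (by omega)
          omega
      _ ≤ (n + 1) ^ K * (n + 1) ^ 2 := by
          apply Nat.mul_le_mul_left
          calc 4 = 2 ^ 2 := by norm_num
            _ ≤ (n + 1) ^ 2 := Nat.pow_le_pow_left (by omega) 2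
      _ = (n + 1) ^ (K + 2) := (pow_add _ _ _).symm
      _ ≤ (2 ^ lam) ^ (K + 2) := Nat.pow_le_pow_left hnl _
      _ = 2 ^ ((K + 2) * lam) := by rw [← pow_mul, mul_comm]
  · calc n ^ K ≤ (2 ^ lam) ^ K := Nat.pow_le_pow_left hnl.le _
      _ = 2 ^ (K * lam) := by rw [← pow_mul, mul_comm]
  · have h1 : s ≤ cK := by rw [hcK]; exact Nat.le_add_left _ _
    have h2 : lam ≤ 192 * T * (3 * ((K + 2) * lam) + K * lam) * ((K + 2) * lam) := by
      have h3 : 1 ≤ 192 * T * (3 * ((K + 2) * lam) + K * lam) * (K + 2) :=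
        Nat.one_le_iff_ne_zero.2 (by positivity)
      calc lam = 1 * lam := (one_mul _).symm
        _ ≤ (192 * T * (3 * ((K + 2) * lam) + K * lam) * (K + 2)) * lam :=
            Nat.mul_le_mul_right _ h3
        _ = 192 * T * (3 * ((K + 2) * lam) + K * lam) * ((K + 2) * lam) := by ring
    omega
  · obtain ⟨X, hX⟩ : ∃ X : ℕ, X = 192 * T * (3 * ((K + 2) * lam) + K * lam) * ((K + 2) * lam) :=
      ⟨_, rfl⟩
    rw [← hX]
    have hXl : X ≤ lam ^ 4 := by
      calc X = (192 * (4 * K + 6) * (K + 2)) * (T * lam ^ 2) := by rw [hX]; ring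
        _ ≤ lam * (lam * lam ^ 2) := by
            apply Nat.mul_le_mul
            · exact le_trans (by rw [hcK]; exact Nat.le_add_right _ _) hcl
            · exact Nat.mul_le_mul_right _ hTl
        _ = lam ^ 4 := by ring
    have hlamR : (lam : ℝ) ≤ u ^ 2 := by nlinarith
    have hXR : (X : ℝ) ≤ (u ^ 2) ^ 4 := by
      have h1 : (X : ℝ) ≤ (lam : ℝ) ^ 4 := by exact_mod_cast hXl
      exact h1.trans (pow_le_pow_left₀ (Nat.cast_nonneg _) hlamR 4)
    have hu0 : 0 < u := by linarith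
    calc (X : ℝ) ^ (8 * T * s) ≤ ((u ^ 2) ^ 4) ^ (8 * T * s) :=
          pow_le_pow_left₀ (Nat.cast_nonneg _) hXR _
      _ = u ^ (64 * s * T) := by
          rw [← pow_mul, ← pow_mul]
          congr 1
          ring
      _ = Real.exp ((64 * s * T : ℕ) * Real.log u) := by
          rw [← Real.log_pow, Real.exp_log (pow_pos hu0 _)]
      _ ≤ Real.exp (ε * u) := by
          apply Real.exp_le_exp.2
          have h1 : min 1 (ε / (64 * ((s : ℝ) + 1))) * u ≤ ε / (64 * ((s : ℝ) + 1)) * u :=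
            mul_le_mul_of_nonneg_right (min_le_right _ _) hu0.le
          have h2 : (T : ℝ) * Real.log u ≤ ε / (64 * ((s : ℝ) + 1)) * u := hTn.trans h1
          have hs0 : (0 : ℝ) ≤ s := Nat.cast_nonneg s
          have h3 : (64 * (s : ℝ)) * (T * Real.log u) ≤
              (64 * s) * (ε / (64 * ((s : ℝ) + 1)) * u) :=
            mul_le_mul_of_nonneg_left h2 (by positivity)
          have h4 : (64 * (s : ℝ)) * (ε / (64 * ((s : ℝ) + 1)) * u) = (s / (s + 1)) * (ε * u) := by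
            field_simp
          have h5 : (s : ℝ) / (s + 1) ≤ 1 := by
            rw [div_le_one (by positivity)]
            linarith
          have h6 : (s : ℝ) / (s + 1) * (ε * u) ≤ 1 * (ε * u) :=
            mul_le_mul_of_nonneg_right h5 (by positivity)
          push_cast
          linarith
      _ = (n : ℝ) ^ ε := by
          rw [Real.rpow_def_of_pos hn0, ← hu, mul_comm]

end Pool.Agent.W964.Wd
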