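import Mathlib
import Pool.Agent.W964.Wd.Tuple2

/-!
Triples of residues with a prescribed sum, and randomized machines on pairs of inputs.
-/

set_option linter.unusedSectionVars false

namespace Pool.Agent.W964.Wd

open Finset H568R2 H592R3 Pool.Agent.W964.Pram

/-- A function of triples that does not depend on one of the three entries does not distinguish
the triples `(a, b, a + b)` from arbitrary triples. -/
lemma sum_triples {N : ℕ} [NeZero N] (j : Fin 3) (G : (Fin 3 → Fin N) → ℝ)
    (hG : ∀ y a, G (Function.update y j a) = G y) :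
    (N : ℝ) * ∑ p : Fin N × Fin N, G ![p.1, p.2, p.1 + p.2] = ∑ y : Fin 3 → Fin N, G y := by
  obtain ⟨Φ, hΦ⟩ : ∃ Φ : (Fin N × Fin N) × Fin N → (Fin 3 → Fin N), Φ = fun p =>
    Function.update ![p.1.1, p.1.2, p.1.1 + p.1.2] j p.2 := ⟨_, rfl⟩
  have hinj : Function.Injective Φ := by
    rintro ⟨⟨a, b⟩, c⟩ ⟨⟨a', b'⟩, c'⟩ h
    rw [hΦ] at h
    have h0 := congrFun h 0
    have h1 := congrFun h 1
    have h2 := congrFun h 2
    fin_cases j
    · simp at h0 h1 h2
      subst h0 h1
      simp at h2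
      subst h2
      rfl
    · simp at h0 h1 h2
      subst h0 h1
      simp at h2
      subst h2
      rfl
    · simp at h0 h1 h2
      subst h0 h1 h2
      rfl
  have hbij : Function.Bijective Φ := by
    rw [Fintype.bijective_iff_injective_and_card]
    refine ⟨hinj, ?_⟩
    rw [Fintype.card_prod, Fintype.card_prod, Fintype.card_fun, Fintype.card_fin,
      Fintype.card_fin]
    ring
  have hcomp : ∑ p, G (Φ p) = ∑ y : Fin 3 → Fin N, G y := hbij.sum_comp G
  have h3 : ∑ p, G (Φ p) = ∑ q : Fin N × Fin N, ∑ c : Fin N, G (Φ (q, c)) :=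
    Fintype.sum_prod_type _
  rw [← hcomp, h3, Finset.mul_sum]
  refine Finset.sum_congr rfl fun p _ => ?_
  have h1 : ∀ c : Fin N, G (Φ (p, c)) = G ![p.1, p.2, p.1 + p.2] := by
    intro c
    rw [hΦ]
    exact hG _ _
  simp only [h1]
  rw [Finset.sum_const, Finset.card_univ, Fintype.card_fin, nsmul_eq_mul]

/-- The pairs without overflow. -/
def noOver (N : ℕ) : Finset (Fin N × Fin N) := univ.filter (fun p => p.1.val + p.2.val < N)

lemma card_noOver (N : ℕ) : N * N ≤ 2 * (noOver N).card := by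
  have h1 := Finset.card_filter_add_card_filter_not (s := (univ : Finset (Fin N × Fin N)))
    (fun p => p.1.val + p.2.val < N)
  rw [Finset.card_univ, Fintype.card_prod, Fintype.card_fin] at h1
  have h2 : ((univ : Finset (Fin N × Fin N)).filter
      (fun p => ¬ p.1.val + p.2.val < N)).card ≤ (noOver N).card := by
    apply Finset.card_le_card_of_injOn (fun p => (Fin.rev p.1, Fin.rev p.2))
    · intro p hp
      rw [Finset.mem_coe, Finset.mem_filter] at hp
      rw [Finset.mem_coe]
      unfold noOver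
      rw [Finset.mem_filter]
      refine ⟨Finset.mem_univ _, ?_⟩
      have := hp.2
      simp only [Fin.val_rev]
      omega
    · intro p _ p' _ h
      simp only [Prod.mk.injEq, Fin.rev_inj] at h
      exact Prod.ext h.1 h.2
  unfold noOver at h2 ⊢
  omega

/-- The weight of the pairs without overflow. -/
noncomputable def wt (N : ℕ) (p : Fin N × Fin N) : ℝ :=
  if p ∈ noOver N then 1 / ((noOver N).card : ℝ) else 0

lemma wt_nonneg (N : ℕ) (p : Fin N × Fin N) : 0 ≤ wt N p := by
  unfold wt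
  split_ifs
  · positivity
  · exact le_rfl

lemma noOver_pos {N : ℕ} (hN : 1 ≤ N) : 0 < (noOver N).card := by
  have h1 := card_noOver N
  have h2 : 1 ≤ N * N := Nat.one_le_iff_ne_zero.2 (by positivity)
  omega

lemma wt_sum {N : ℕ} (hN : 1 ≤ N) : ∑ p, wt N p = 1 := by
  unfold wt
  rw [Finset.sum_ite_mem, Finset.univ_inter, Finset.sum_const, nsmul_eq_mul]
  have h3 : ((noOver N).card : ℝ) ≠ 0 := by
    have := noOver_pos hN
    exact_mod_cast this.ne'
  field_simp

lemma wt_le {N : ℕ} (hN : 1 ≤ N) (p : Fin N × Fin N) : wt N p ≤ 2 * (1 / (N : ℝ)) ^ 2 := by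
  have hNR : (0 : ℝ) < N := by exact_mod_cast hN
  have hc : (0 : ℝ) < (noOver N).card := by exact_mod_cast noOver_pos hN
  unfold wt
  split_ifs
  · rw [one_div_pow, mul_one_div, div_le_div_iff₀ hc (by positivity), one_mul]
    have h1 : ((N * N : ℕ) : ℝ) ≤ ((2 * (noOver N).card : ℕ) : ℝ) := by
      exact_mod_cast card_noOver N
    push_cast at h1
    nlinarith
  · positivity

/-- The planted triples are dominated by random ones on every proper subset. -/
lemma triples_dom {N : ℕ} [NeZero N] (H : Finset (Fin 3)) (hH : H.card ≤ 2)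
    (G : (Fin 3 → Fin N) → ℝ) (hG0 : ∀ y, 0 ≤ G y)
    (hG : ∀ y y', (∀ h ∈ H, y h = y' h) → G y = G y') :
    ∑ p, wt N p * G ![p.1, p.2, p.1 + p.2] ≤ 2 * Ex (fun _ : Fin N => 1 / (N : ℝ)) G := by
  have hN : 1 ≤ N := Nat.one_le_iff_ne_zero.2 (NeZero.ne N)
  have hNR : (0 : ℝ) < N := by exact_mod_cast hN
  obtain ⟨j, hj⟩ : ∃ j : Fin 3, j ∉ H := by
    by_contra hcon
    push Not at hcon
    have : H = univ := by ext j; simp [hcon j]
    rw [this, Finset.card_univ, Fintype.card_fin] at hH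
    omega
  have h1 := sum_triples j G (fun y a => hG _ _ (fun h hh => by
    have : h ≠ j := fun e => hj (e ▸ hh)
    rw [Function.update_of_ne this]))
  calc ∑ p, wt N p * G ![p.1, p.2, p.1 + p.2]
      ≤ ∑ p : Fin N × Fin N, (2 * (1 / (N : ℝ)) ^ 2) * G ![p.1, p.2, p.1 + p.2] :=
        Finset.sum_le_sum fun p _ => mul_le_mul_of_nonneg_right (wt_le hN p) (hG0 _)
    _ = (2 * (1 / (N : ℝ)) ^ 3) * ((N : ℝ) * ∑ p : Fin N × Fin N,
          G ![p.1, p.2, p.1 + p.2]) := by
        rw [← Finset.mul_sum]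
        field_simp
    _ = 2 * Ex (fun _ : Fin N => 1 / (N : ℝ)) G := by
        rw [h1]
        unfold Ex
        simp only [Finset.prod_const, Finset.card_univ, Fintype.card_fin]
        rw [← Finset.mul_sum]
        ring

open Classical in
/-- Randomized machines on pairs of inputs with different answers. -/
lemma rand_pairs {W J : Type} {P : ℕ} (R : RandMachine W J P) (T : ℕ) {Ξ : Type} [Fintype Ξ]
    (μ : Ξ → ℝ) (h0 : ∀ ξ, 0 ≤ μ ξ) (h1 : ∑ ξ, μ ξ = 1) (x x' : Ξ → J → W)
    (valid yes : (J → W) → Prop)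
    (hv : ∀ ξ, μ ξ ≠ 0 → valid (x ξ) ∧ ¬ yes (x ξ) ∧ valid (x' ξ) ∧ yes (x' ξ)) {η : ℝ}
    (hη : 0 ≤ η)
    (h : ∀ ω, ∑ ξ, μ ξ * (if (R.mach ω).result T (x ξ) ≠ (R.mach ω).result T (x' ξ)
      then (1 : ℝ) else 0) ≤ η) :
    ∃ z, valid z ∧ R.success T z (yes z) ≤ 1 / 2 + η := by
  let _ := R.fin
  by_contra hcon
  push Not at hcon
  have h2 : ∑ ξ, μ ξ * (R.success T (x ξ) (yes (x ξ)) + R.success T (x' ξ) (yes (x' ξ))) ≤
      1 + η := by
    have h3 : ∀ ξ, μ ξ * (R.success T (x ξ) (yes (x ξ)) + R.success T (x' ξ) (yes (x' ξ))) ≤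
        μ ξ * ∑ ω, R.prob ω * (1 + (if (R.mach ω).result T (x ξ) ≠
          (R.mach ω).result T (x' ξ) then (1 : ℝ) else 0)) := by
      intro ξ
      by_cases hξ : μ ξ = 0
      · rw [hξ, zero_mul, zero_mul]
      · apply mul_le_mul_of_nonneg_left _ (h0 ξ)
        obtain ⟨_, hn, _, hy⟩ := hv ξ hξ
        unfold RandMachine.success
        rw [← Finset.sum_add_distrib]
        refine Finset.sum_le_sum fun ω _ => ?_
        have hp := R.nonneg ω
        by_cases hr : (R.mach ω).result T (x ξ) = (R.mach ω).result T (x' ξ)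
        · have ha : (R.mach ω).answer T (x ξ) = (R.mach ω).answer T (x' ξ) := by
            unfold Machine.answer
            rw [hr]
          rw [ha, if_neg (not_not.2 hr)]
          by_cases hans : (R.mach ω).answer T (x' ξ) = true
          · simp [hans, hn, hy]
          · simp [hans, hn, hy]
        · rw [if_pos hr]
          split_ifs <;> linarith
    refine (Finset.sum_le_sum fun ξ _ => h3 ξ).trans ?_
    have h4 : ∑ ξ, μ ξ * ∑ ω, R.prob ω * (1 + (if (R.mach ω).result T (x ξ) ≠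
          (R.mach ω).result T (x' ξ) then (1 : ℝ) else 0)) =
        ∑ ω, R.prob ω * (1 + ∑ ξ, μ ξ * (if (R.mach ω).result T (x ξ) ≠
          (R.mach ω).result T (x' ξ) then (1 : ℝ) else 0)) := by
      simp only [Finset.mul_sum]
      rw [Finset.sum_comm]
      refine Finset.sum_congr rfl fun ω _ => ?_
      have : ∀ ξ, μ ξ * (R.prob ω * (1 + (if (R.mach ω).result T (x ξ) ≠
          (R.mach ω).result T (x' ξ) then (1 : ℝ) else 0))) = R.prob ω * μ ξ + R.prob ω * (μ ξ *
          (if (R.mach ω).result T (x ξ) ≠ (R.mach ω).result T (x' ξ) then (1 : ℝ) else 0)) := by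
        intro ξ; ring
      simp only [this]
      rw [Finset.sum_add_distrib, ← Finset.mul_sum, h1, ← Finset.mul_sum]
      ring
    rw [h4]
    calc ∑ ω, R.prob ω * (1 + ∑ ξ, μ ξ * (if (R.mach ω).result T (x ξ) ≠
          (R.mach ω).result T (x' ξ) then (1 : ℝ) else 0)) ≤ ∑ ω, R.prob ω * (1 + η) :=
          Finset.sum_le_sum fun ω _ =>
            mul_le_mul_of_nonneg_left (by linarith [h ω]) (R.nonneg ω)
      _ = 1 + η := by rw [← Finset.sum_mul, R.total, one_mul]
  have h3 : 1 + 2 * η < ∑ ξ, μ ξ * (R.success T (x ξ) (yes (x ξ)) +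
      R.success T (x' ξ) (yes (x' ξ))) := by
    have h4 : 1 + 2 * η = ∑ ξ, μ ξ * (1 + 2 * η) := by rw [← Finset.sum_mul, h1, one_mul]
    rw [h4]
    apply Finset.sum_lt_sum
    · intro ξ _
      by_cases hξ : μ ξ = 0
      · rw [hξ, zero_mul, zero_mul]
      · obtain ⟨ha, _, hb, _⟩ := hv ξ hξ
        have h5 := hcon _ ha
        have h6 := hcon _ hb
        exact mul_le_mul_of_nonneg_left (by linarith) (h0 ξ)
    · have : ∃ ξ, μ ξ ≠ 0 := by
        by_contra hc
        push Not at hc
        simp only [hc, Finset.sum_const_zero] at h1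
        exact zero_ne_one h1
      obtain ⟨ξ, hξ⟩ := this
      refine ⟨ξ, Finset.mem_univ ξ, ?_⟩
      obtain ⟨ha, _, hb, _⟩ := hv ξ hξ
      have h5 := hcon _ ha
      have h6 := hcon _ hb
      exact mul_lt_mul_of_pos_left (by linarith) (lt_of_le_of_ne (h0 ξ) (Ne.symm hξ))
  linarith

end Pool.Agent.W964.Wd
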