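import Mathlib
import Pool.Agent.W964.Wd.Triples
import Pool.Agent.W964.Wd.Param

/-!
Random sorted lists of integers with and without a planted solution of `a + b = c`.
-/

set_option linter.unusedSectionVars false

namespace Pool.Agent.W964.Wd

open Finset H568R2 H592R3 Pool.Agent.W964.Pram

/-- An instance of 3SUM: a strictly increasing list of `n` integers from `-n ^ 3` to `n ^ 3`. -/
def SumInst (n : ℕ) (x : Fin n → ℤ) : Prop := StrictMono x ∧ ∀ i, |x i| ≤ (n : ℤ) ^ 3

/-- Three distinct entries of the list satisfy `a + b = c`. -/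
def SumYes {n : ℕ} (x : Fin n → ℤ) : Prop :=
  ∃ i j k, i ≠ j ∧ i ≠ k ∧ j ≠ k ∧ x i + x j = x k

/-- The list with the offsets `Z`. -/
def arr {n N : ℕ} (Z : Fin n → Fin N) : Fin n → ℤ := fun i => (N : ℤ) * i.val + (Z i).val

lemma arr_blk {n N : ℕ} : Blk (arr (n := n) (N := N)) := by
  intro j
  exact ⟨j, fun Y Y' h => by unfold arr; rw [h]⟩

lemma arr_inst {n : ℕ} (Z : Fin n → Fin (n ^ 2)) : SumInst n (arr Z) := by
  constructor
  · intro i j hij
    unfold arr
    have h1 : (i.val : ℤ) + 1 ≤ j.val := by exact_mod_cast hij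
    have h2 : ((Z i).val : ℤ) < ((n ^ 2 : ℕ) : ℤ) := by exact_mod_cast (Z i).isLt
    have h3 : (0 : ℤ) ≤ (Z j).val := by positivity
    have h4 : ((n ^ 2 : ℕ) : ℤ) * (i.val + 1) ≤ ((n ^ 2 : ℕ) : ℤ) * j.val :=
      mul_le_mul_of_nonneg_left h1 (by positivity)
    nlinarith
  · intro i
    unfold arr
    rw [abs_of_nonneg (by positivity)]
    have h1 : (i.val : ℤ) + 1 ≤ n := by exact_mod_cast i.isLt
    have h2 : ((Z i).val : ℤ) < ((n ^ 2 : ℕ) : ℤ) := by exact_mod_cast (Z i).isLt
    have h4 : ((n ^ 2 : ℕ) : ℤ) * (i.val + 1) ≤ ((n ^ 2 : ℕ) : ℤ) * n :=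
      mul_le_mul_of_nonneg_left h1 (by positivity)
    have h5 : ((n ^ 2 : ℕ) : ℤ) * n = (n : ℤ) ^ 3 := by push_cast; ring
    nlinarith

/-- The positions of a planted triple. -/
def pos3 {n : ℕ} (κ : Fin (n / 4) × Fin (n / 4)) : Fin 3 → Fin n :=
  ![⟨1 + κ.1.val, by have := κ.1.isLt; omega⟩,
    ⟨n / 4 + 1 + κ.2.val, by have := κ.2.isLt; omega⟩,
    ⟨n / 4 + 2 + κ.1.val + κ.2.val, by have := κ.1.isLt; have := κ.2.isLt; omega⟩]

lemma pos3_0 {n : ℕ} (κ : Fin (n / 4) × Fin (n / 4)) : (pos3 κ 0).val = 1 + κ.1.val := rfl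

lemma pos3_1 {n : ℕ} (κ : Fin (n / 4) × Fin (n / 4)) : (pos3 κ 1).val = n / 4 + 1 + κ.2.val := rfl

lemma pos3_2 {n : ℕ} (κ : Fin (n / 4) × Fin (n / 4)) :
    (pos3 κ 2).val = n / 4 + 2 + κ.1.val + κ.2.val := rfl

lemma pos3_inj {n : ℕ} (κ : Fin (n / 4) × Fin (n / 4)) : Function.Injective (pos3 κ) := by
  have h0 := pos3_0 κ
  have h1 := pos3_1 κ
  have h2 := pos3_2 κ
  have ha := κ.1.isLt
  intro a b hab
  have hv : (pos3 κ a).val = (pos3 κ b).val := by rw [hab]
  fin_cases a <;> fin_cases b <;> first | rfl | (exfalso; revert hv; simp; omega)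

/-- The bound of the number of planted triples through given positions. -/
def B3 (n s : ℕ) : ℕ := if s = 1 then n / 4 else 1

lemma pair_eq {α : Type*} [DecidableEq α] {p q p' q' : α} (h : ({p, q} : Finset α) = {p', q'}) :
    (p = p' ∨ p = q') ∧ (q = p' ∨ q = q') ∧ (p' = p ∨ p' = q) ∧ (q' = p ∨ q' = q) := by
  have h1 : p ∈ ({p', q'} : Finset α) := by rw [← h]; simp
  have h2 : q ∈ ({p', q'} : Finset α) := by rw [← h]; simp
  have h3 : p' ∈ ({p, q} : Finset α) := by rw [h]; simp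
  have h4 : q' ∈ ({p, q} : Finset α) := by rw [h]; simp
  simp only [Finset.mem_insert, Finset.mem_singleton] at h1 h2 h3 h4
  exact ⟨h1, h2, h3, h4⟩

open Classical in
lemma pos3_count {n : ℕ} (H : Finset (Fin 3)) (V : Finset (Fin n)) (hH1 : 1 ≤ H.card)
    (hH2 : H.card ≤ 2 * (2 - 1)) :
    (univ.filter (fun κ : Fin (n / 4) × Fin (n / 4) => H.image (pos3 κ) = V)).card ≤
      B3 n H.card := by
  have hcases : H = {0} ∨ H = {1} ∨ H = {2} ∨ H = {0, 1} ∨ H = {0, 2} ∨ H = {1, 2} := by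
    revert H
    decide
  have hone : ∀ f : Fin (n / 4) × Fin (n / 4) → Fin (n / 4),
      (∀ κ κ' : Fin (n / 4) × Fin (n / 4), H.image (pos3 κ) = V → H.image (pos3 κ') = V →
        f κ = f κ' → κ = κ') →
      (univ.filter (fun κ : Fin (n / 4) × Fin (n / 4) => H.image (pos3 κ) = V)).card ≤ n / 4 := by
    intro f hf
    have h1 := Finset.card_le_card_of_injOn (s := univ.filter
      (fun κ : Fin (n / 4) × Fin (n / 4) => H.image (pos3 κ) = V)) (t := univ) f
      (fun κ _ => Finset.mem_coe.2 (Finset.mem_univ _)) (by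
        intro κ hκ κ' hκ' h
        exact hf κ κ' (Finset.mem_filter.1 (Finset.mem_coe.1 hκ)).2
          (Finset.mem_filter.1 (Finset.mem_coe.1 hκ')).2 h)
    rwa [Finset.card_univ, Fintype.card_fin] at h1
  have htwo : (∀ κ κ' : Fin (n / 4) × Fin (n / 4), H.image (pos3 κ) = V →
      H.image (pos3 κ') = V → κ = κ') →
      (univ.filter (fun κ : Fin (n / 4) × Fin (n / 4) => H.image (pos3 κ) = V)).card ≤ 1 := by
    intro hf
    rw [Finset.card_le_one]
    intro κ hκ κ' hκ'
    exact hf κ κ' (Finset.mem_filter.1 hκ).2 (Finset.mem_filter.1 hκ').2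
  have hext : ∀ κ κ' : Fin (n / 4) × Fin (n / 4), κ.1.val = κ'.1.val → κ.2.val = κ'.2.val →
      κ = κ' := by
    intro κ κ' h1 h2
    exact Prod.ext (Fin.ext h1) (Fin.ext h2)
  rcases hcases with rfl | rfl | rfl | rfl | rfl | rfl
  · refine (hone (fun κ => κ.2) ?_).trans (le_of_eq (by simp [B3]))
    intro κ κ' h h' he
    rw [Finset.image_singleton] at h h'
    have h2 := Finset.singleton_injective (h.trans h'.symm)
    have h3 := congrArg Fin.val h2
    rw [pos3_0, pos3_0] at h3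
    exact hext κ κ' (by omega) (congrArg Fin.val he)
  · refine (hone (fun κ => κ.1) ?_).trans (le_of_eq (by simp [B3]))
    intro κ κ' h h' he
    rw [Finset.image_singleton] at h h'
    have h2 := Finset.singleton_injective (h.trans h'.symm)
    have h3 := congrArg Fin.val h2
    rw [pos3_1, pos3_1] at h3
    exact hext κ κ' (congrArg Fin.val he) (by omega)
  · refine (hone (fun κ => κ.1) ?_).trans (le_of_eq (by simp [B3]))
    intro κ κ' h h' he
    rw [Finset.image_singleton] at h h'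
    have h2 := Finset.singleton_injective (h.trans h'.symm)
    have h3 := congrArg Fin.val h2
    have h4 := congrArg Fin.val he
    rw [pos3_2, pos3_2] at h3
    exact hext κ κ' h4 (by omega)
  · refine (htwo ?_).trans (le_of_eq (by simp [B3]))
    intro κ κ' h h'
    rw [Finset.image_insert, Finset.image_singleton] at h h'
    obtain ⟨h1, h2, h3, h4⟩ := pair_eq (h.trans h'.symm)
    simp only [Fin.ext_iff, pos3_0, pos3_1] at h1 h2 h3 h4
    have := κ.1.isLt
    have := κ'.1.isLt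
    exact hext κ κ' (by omega) (by omega)
  · refine (htwo ?_).trans (le_of_eq (by simp [B3]))
    intro κ κ' h h'
    rw [Finset.image_insert, Finset.image_singleton] at h h'
    obtain ⟨h1, h2, h3, h4⟩ := pair_eq (h.trans h'.symm)
    simp only [Fin.ext_iff, pos3_0, pos3_2] at h1 h2 h3 h4
    have := κ.1.isLt
    have := κ'.1.isLt
    exact hext κ κ' (by omega) (by omega)
  · refine (htwo ?_).trans (le_of_eq (by simp [B3]))
    intro κ κ' h h'
    rw [Finset.image_insert, Finset.image_singleton] at h h'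
    obtain ⟨h1, h2, h3, h4⟩ := pair_eq (h.trans h'.symm)
    simp only [Fin.ext_iff, pos3_1, pos3_2] at h1 h2 h3 h4
    have := κ.1.isLt
    have := κ'.1.isLt
    exact hext κ κ' (by omega) (by omega)

open Classical in
/-- The probability of a given equation. -/
lemma eq_prob {n N : ℕ} (hN : 1 ≤ N) (i j k : Fin n) :
    Ex (fun _ : Fin N => 1 / (N : ℝ)) (fun Z : Fin n → Fin N =>
      if (i ≠ j ∧ i ≠ k ∧ j ≠ k ∧ arr Z i + arr Z j = arr Z k) then (1 : ℝ) else 0) ≤
    Ex (fun _ : Fin N => 1 / (N : ℝ)) (fun Z : Fin n → Fin N =>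
      (1 / (N : ℝ)) * (if (arr Z i + arr Z j) / (N : ℤ) = k.val then (1 : ℝ) else 0)) := by
  have hNR : (0 : ℝ) < N := by exact_mod_cast hN
  have hl : ∀ a : Fin N, (0 : ℝ) ≤ (fun _ : Fin N => 1 / (N : ℝ)) a := fun _ => by positivity
  have hl1 : ∑ _a : Fin N, (1 / (N : ℝ)) = 1 := by
    rw [Finset.sum_const, Finset.card_univ, Fintype.card_fin, nsmul_eq_mul]
    field_simp
  rw [Ex_resample hl1 _ k]
  apply Ex_mono hl
  intro Z
  rw [← Finset.mul_sum]
  apply mul_le_mul_of_nonneg_left _ (by positivity)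
  by_cases hc : i ≠ j ∧ i ≠ k ∧ j ≠ k
  · obtain ⟨h1, h2, h3⟩ := hc
    have e1 : ∀ a : Fin N, arr (Function.update Z k a) i = arr Z i := by
      intro a
      unfold arr
      rw [Function.update_of_ne h2]
    have e2 : ∀ a : Fin N, arr (Function.update Z k a) j = arr Z j := by
      intro a
      unfold arr
      rw [Function.update_of_ne h3]
    have e3 : ∀ a : Fin N, arr (Function.update Z k a) k = (N : ℤ) * k.val + a.val := by
      intro a
      unfold arr
      rw [Function.update_self]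
    simp only [e1, e2, e3]
    rw [Finset.sum_boole]
    by_cases hs : (arr Z i + arr Z j) / (N : ℤ) = k.val
    · rw [if_pos hs]
      have : (univ.filter (fun a : Fin N => i ≠ j ∧ i ≠ k ∧ j ≠ k ∧
          arr Z i + arr Z j = (N : ℤ) * k.val + a.val)).card ≤ 1 := by
        rw [Finset.card_le_one]
        intro a ha b hb
        have ha' := (Finset.mem_filter.1 ha).2.2.2.2
        have hb' := (Finset.mem_filter.1 hb).2.2.2.2
        apply Fin.ext
        have : (a.val : ℤ) = b.val := by linarith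
        exact_mod_cast this
      exact_mod_cast this
    · rw [if_neg hs]
      have : univ.filter (fun a : Fin N => i ≠ j ∧ i ≠ k ∧ j ≠ k ∧
          arr Z i + arr Z j = (N : ℤ) * k.val + a.val) = ∅ := by
        rw [Finset.filter_eq_empty_iff]
        rintro a _ ⟨_, _, _, h4⟩
        apply hs
        rw [h4]
        have h5 : (0 : ℤ) < N := by exact_mod_cast hN
        rw [Int.mul_add_ediv_left _ _ h5.ne', Int.ediv_eq_zero_of_lt (by positivity)
          (by exact_mod_cast a.isLt), add_zero]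
      rw [this]
      simp
  · have : ∀ a : Fin N, ¬ (i ≠ j ∧ i ≠ k ∧ j ≠ k ∧ arr (Function.update Z k a) i +
        arr (Function.update Z k a) j = arr (Function.update Z k a) k) :=
      fun a h => hc ⟨h.1, h.2.1, h.2.2.1⟩
    simp only [this, if_false, Finset.sum_const_zero]
    split_ifs <;> norm_num

open Classical in
/-- Random lists have no solution with probability at least one half. -/
lemma yes_prob {n : ℕ} (hn : 1 ≤ n) :
    Ex (fun _ : Fin (n ^ 2) => 1 / ((n ^ 2 : ℕ) : ℝ)) (fun Z : Fin n → Fin (n ^ 2) =>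
      if SumYes (arr Z) then (1 : ℝ) else 0) ≤ 1 / 2 := by
  obtain ⟨N, hN⟩ : ∃ N, N = n ^ 2 := ⟨_, rfl⟩
  have hN1 : 1 ≤ N := by rw [hN]; exact Nat.one_le_pow _ _ hn
  rw [← hN]
  have hNR : (0 : ℝ) < N := by exact_mod_cast hN1
  have hl : ∀ a : Fin N, (0 : ℝ) ≤ (fun _ : Fin N => 1 / (N : ℝ)) a := fun _ => by positivity
  have hl1 : ∑ _a : Fin N, (1 / (N : ℝ)) = 1 := by
    rw [Finset.sum_const, Finset.card_univ, Fintype.card_fin, nsmul_eq_mul]
    field_simp
  obtain ⟨e, he⟩ : ∃ e : Fin n → Fin n → Fin n → (Fin n → Fin N) → ℝ, e = fun i j k Z =>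
      if (i ≠ j ∧ i ≠ k ∧ j ≠ k ∧ arr Z i + arr Z j = arr Z k) then (1 : ℝ) else 0 := ⟨_, rfl⟩
  have he0 : ∀ i j k Z, 0 ≤ e i j k Z := by
    intro i j k Z; rw [he]; dsimp only; split_ifs <;> norm_num
  have hpt : ∀ Z : Fin n → Fin N, (if SumYes (arr Z) then (1 : ℝ) else 0) ≤
      (1 / 2) * ∑ p : Fin n × Fin n, ∑ k, e p.1 p.2 k Z := by
    intro Z
    have hf0 : ∀ p : Fin n × Fin n, 0 ≤ ∑ k, e p.1 p.2 k Z :=
      fun p => Finset.sum_nonneg fun k _ => he0 _ _ _ _
    by_cases hy : SumYes (arr Z)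
    · rw [if_pos hy]
      obtain ⟨i, j, k, h1, h2, h3, h4⟩ := hy
      have hne : (i, j) ≠ (j, i) := by
        intro h
        exact h1 (Prod.mk.inj h).1
      have h5 := Finset.sum_le_sum_of_subset_of_nonneg
        (Finset.subset_univ ({(i, j), (j, i)} : Finset (Fin n × Fin n)))
        (fun p _ _ => hf0 p)
      rw [Finset.sum_pair hne] at h5
      have h6 : (1 : ℝ) ≤ ∑ k, e i j k Z := by
        refine le_trans ?_ (Finset.single_le_sum (fun k _ => he0 i j k Z) (Finset.mem_univ k))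
        rw [he]
        dsimp only
        rw [if_pos ⟨h1, h2, h3, h4⟩]
      have h7 : (1 : ℝ) ≤ ∑ k, e j i k Z := by
        refine le_trans ?_ (Finset.single_le_sum (fun k _ => he0 j i k Z) (Finset.mem_univ k))
        rw [he]
        dsimp only
        rw [if_pos ⟨Ne.symm h1, h3, h2, by rw [add_comm]; exact h4⟩]
      dsimp only at h5
      linarith
    · rw [if_neg hy]
      have := Finset.sum_nonneg (fun p (_ : p ∈ (univ : Finset (Fin n × Fin n))) => hf0 p)
      linarith
  refine (Ex_mono hl hpt).trans ?_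
  rw [Ex_smul, Ex_sum]
  have h1 : ∀ p ∈ (univ : Finset (Fin n × Fin n)),
      Ex (fun _ : Fin N => 1 / (N : ℝ)) (fun Z : Fin n → Fin N => ∑ k, e p.1 p.2 k Z) ≤
      1 / (N : ℝ) := by
    intro p _
    rw [Ex_sum]
    have h2 : ∀ k, Ex (fun _ : Fin N => 1 / (N : ℝ)) (fun Z : Fin n → Fin N =>
        e p.1 p.2 k Z) ≤ Ex (fun _ : Fin N => 1 / (N : ℝ)) (fun Z : Fin n → Fin N =>
      (1 / (N : ℝ)) * (if (arr Z p.1 + arr Z p.2) / (N : ℤ) = k.val then (1 : ℝ) else 0)) := by
      intro k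
      rw [he]
      exact eq_prob hN1 p.1 p.2 k
    refine (Finset.sum_le_sum fun k _ => h2 k).trans ?_
    rw [← Ex_sum]
    have h3 : ∀ Z : Fin n → Fin N, ∑ k : Fin n, (1 / (N : ℝ)) *
        (if (arr Z p.1 + arr Z p.2) / (N : ℤ) = k.val then (1 : ℝ) else 0) ≤ 1 / (N : ℝ) := by
      intro Z
      rw [← Finset.mul_sum, Finset.sum_boole]
      have h4 : (univ.filter (fun k : Fin n =>
          (arr Z p.1 + arr Z p.2) / (N : ℤ) = k.val)).card ≤ 1 := by
        rw [Finset.card_le_one]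
        intro a ha b hb
        have ha' := (Finset.mem_filter.1 ha).2
        have hb' := (Finset.mem_filter.1 hb).2
        apply Fin.ext
        have : (a.val : ℤ) = b.val := by rw [← ha', ← hb']
        exact_mod_cast this
      have h5 : (((univ.filter (fun k : Fin n =>
          (arr Z p.1 + arr Z p.2) / (N : ℤ) = k.val)).card : ℕ) : ℝ) ≤ 1 := by exact_mod_cast h4
      calc _ ≤ (1 / (N : ℝ)) * 1 := mul_le_mul_of_nonneg_left h5 (by positivity)
        _ = 1 / (N : ℝ) := mul_one _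
    refine (Ex_mono hl h3).trans (le_of_eq ?_)
    exact Ex_const hl1 _
  have h2 := Finset.sum_le_card_nsmul _ _ _ h1
  rw [Finset.card_univ, Fintype.card_prod, Fintype.card_fin, nsmul_eq_mul] at h2
  have h3 : (((n * n : ℕ) : ℝ)) * (1 / (N : ℝ)) = 1 := by
    have : ((n * n : ℕ) : ℝ) = N := by rw [hN]; push_cast; ring
    rw [this]
    field_simp
  rw [h3] at h2
  linarith

end Pool.Agent.W964.Wd
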