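import Mathlib
import Pool.Agent.W964.Wd.SumDist

/-!
3SUM is hard for parallel machines with word inputs.
-/

set_option linter.unusedSectionVars false

namespace Pool.Agent.W964.Wd

open Finset H568R2 H592R3 Pool.Agent.W964.Pram

/-- The planted list has a solution. -/
lemma planted_yes {n N : ℕ} [NeZero N] (κ : Fin (n / 4) × Fin (n / 4)) (Z : Fin n → Fin N)
    (p : Fin N × Fin N) (hp : p ∈ noOver N) :
    SumYes (arr (Function.extend (pos3 κ) ![p.1, p.2, p.1 + p.2] Z)) := by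
  have hp' : p.1.val + p.2.val < N := (Finset.mem_filter.1 hp).2
  have hinj := pos3_inj κ
  refine ⟨pos3 κ 0, pos3 κ 1, pos3 κ 2, fun h => ?_, fun h => ?_, fun h => ?_, ?_⟩
  · have := hinj h
    revert this
    decide
  · have := hinj h
    revert this
    decide
  · have := hinj h
    revert this
    decide
  · have e : ∀ h, arr (Function.extend (pos3 κ) ![p.1, p.2, p.1 + p.2] Z) (pos3 κ h) =
        (N : ℤ) * (pos3 κ h).val + ((![p.1, p.2, p.1 + p.2] : Fin 3 → Fin N) h).val := by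
      intro h
      unfold arr
      rw [hinj.extend_apply]
    rw [e, e, e, pos3_0, pos3_1, pos3_2]
    have h0 : ((![p.1, p.2, p.1 + p.2] : Fin 3 → Fin N) 0).val = p.1.val := rfl
    have h1 : ((![p.1, p.2, p.1 + p.2] : Fin 3 → Fin N) 1).val = p.2.val := rfl
    have h2 : ((![p.1, p.2, p.1 + p.2] : Fin 3 → Fin N) 2).val = p.1.val + p.2.val := by
      show (p.1 + p.2).val = _
      exact Fin.val_add_eq_of_add_lt hp'
    rw [h0, h1, h2]
    push_cast
    ring

open Classical in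
theorem sum_core (ε : ℝ) (hε : 0 < ε) (hε1 : ε ≤ 1) (K : ℕ) : ∃ δ : ℝ, 0 < δ ∧ ∃ n₀ : ℕ,
    ∀ n : ℕ, n₀ ≤ n → ∃ (Ξ : Type) (_ : Fintype Ξ) (μ : Ξ → ℝ) (x x' : Ξ → Fin n → ℤ),
      (∀ ξ, 0 ≤ μ ξ) ∧ ∑ ξ, μ ξ = 1 ∧
      (∀ ξ, μ ξ ≠ 0 → SumInst n (x ξ) ∧ ¬ SumYes (x ξ) ∧ SumInst n (x' ξ) ∧ SumYes (x' ξ)) ∧
      ∀ T P : ℕ, 1 ≤ T → T * Real.log (Real.log n) ≤ δ * Real.log n →
        (P : ℝ) ≤ (n : ℝ) ^ (2 - ε) → ∀ M : Machine ℤ (Fin n) P, M.Lists (n ^ K) →
        ∑ ξ, μ ξ * (if M.result T (x ξ) ≠ M.result T (x' ξ) then (1 : ℝ) else 0) ≤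
          (n : ℝ) ^ (-(ε / 3)) := by
  obtain ⟨δ, hδ, n₁, hpar⟩ := params (ε / 2) (by linarith) (K + 2) 4
  refine ⟨δ, hδ, max (max n₁ 8) ⌈(4096 : ℝ) ^ (6 / ε)⌉₊, ?_⟩
  intro n hn
  have hn1 : n₁ ≤ n := le_trans (le_trans (le_max_left _ _) (le_max_left _ _)) hn
  have hn8 : 8 ≤ n := le_trans (le_trans (le_max_right _ _) (le_max_left _ _)) hn
  have hnc : ⌈(4096 : ℝ) ^ (6 / ε)⌉₊ ≤ n := le_trans (le_max_right _ _) hn
  have hn1' : 1 ≤ n := by omega
  have hnR : (0 : ℝ) < n := by exact_mod_cast hn1'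
  have hnR1 : (1 : ℝ) ≤ n := by exact_mod_cast hn1'
  have hbig : (4096 : ℝ) ≤ (n : ℝ) ^ (ε / 6) := by
    have h1 : (4096 : ℝ) ^ (6 / ε) ≤ n := (Nat.le_ceil _).trans (by exact_mod_cast hnc)
    have h2 := Real.rpow_le_rpow (by positivity) h1 (by positivity : 0 ≤ ε / 6)
    rw [← Real.rpow_mul (by norm_num)] at h2
    have h3 : 6 / ε * (ε / 6) = 1 := by field_simp
    rwa [h3, Real.rpow_one] at h2
  obtain ⟨N, hN⟩ : ∃ N, N = n ^ 2 := ⟨_, rfl⟩
  have hN1 : 1 ≤ N := by rw [hN]; exact Nat.one_le_pow _ _ hn1'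
  have : NeZero N := ⟨by omega⟩
  have hNR : (0 : ℝ) < N := by exact_mod_cast hN1
  obtain ⟨lam, hlam⟩ : ∃ lam : Fin N → ℝ, lam = fun _ => 1 / (N : ℝ) := ⟨_, rfl⟩
  have hl0 : ∀ a, 0 ≤ lam a := by intro a; rw [hlam]; positivity
  have hl1 : ∑ a, lam a = 1 := by
    rw [hlam, Finset.sum_const, Finset.card_univ, Fintype.card_fin, nsmul_eq_mul]
    field_simp
  have hprod : ∀ Z : Fin n → Fin N, 0 ≤ ∏ i, lam (Z i) :=
    fun Z => Finset.prod_nonneg fun i _ => hl0 _
  -- no-instances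
  obtain ⟨no, hno⟩ : ∃ no : (Fin n → Fin N) → ℝ,
    no = fun Z => if SumYes (arr Z) then 0 else 1 := ⟨_, rfl⟩
  have hno0 : ∀ Z, 0 ≤ no Z := by intro Z; rw [hno]; dsimp only; split_ifs <;> norm_num
  have hno1 : ∀ Z, no Z ≤ 1 := by intro Z; rw [hno]; dsimp only; split_ifs <;> norm_num
  obtain ⟨p0, hp0⟩ : ∃ p0 : ℝ, p0 = Ex lam no := ⟨_, rfl⟩
  have hp0' : 1 / 2 ≤ p0 := by
    have h1 := yes_prob hn1'
    rw [← hN] at h1
    have h2 : Ex lam no + Ex (fun _ : Fin N => 1 / (N : ℝ)) (fun Z : Fin n → Fin N =>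
        if SumYes (arr Z) then (1 : ℝ) else 0) = 1 := by
      rw [← hlam, ← Ex_add]
      have h3 : (fun Z : Fin n → Fin N => no Z + (if SumYes (arr Z) then (1 : ℝ) else 0)) =
          fun _ => 1 := by
        funext Z
        rw [hno]
        dsimp only
        split_ifs <;> norm_num
      rw [h3, Ex_const hl1]
    rw [hp0]
    linarith
  have hp00 : 0 < p0 := by linarith
  obtain ⟨m, hm⟩ : ∃ m, m = n / 4 := ⟨_, rfl⟩
  have hm1 : 1 ≤ m := by omega
  have hmR : (n : ℝ) / 8 ≤ m := by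
    have : n ≤ 8 * m := by omega
    have : (n : ℝ) ≤ ((8 * m : ℕ) : ℝ) := by exact_mod_cast this
    push_cast at this
    linarith
  have hm0 : (0 : ℝ) < m := by exact_mod_cast hm1
  obtain ⟨D, hD⟩ : ∃ D : (Fin n → Fin N) × (Fin N × Fin N) → ℝ,
    D = fun ω => (∏ i, lam (ω.1 i)) * wt N ω.2 := ⟨_, rfl⟩
  have hD0 : ∀ ω, 0 ≤ D ω := by
    intro ω; rw [hD]; exact mul_nonneg (hprod _) (wt_nonneg N _)
  refine ⟨(Fin (n / 4) × Fin (n / 4)) × ((Fin n → Fin N) × (Fin N × Fin N)), inferInstance,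
    fun ξ => (1 / ((m : ℝ) ^ 2 * p0)) * (D ξ.2 * no ξ.2.1), fun ξ => arr ξ.2.1,
    fun ξ => arr (Function.extend (pos3 ξ.1) ![ξ.2.2.1, ξ.2.2.2, ξ.2.2.1 + ξ.2.2.2] ξ.2.1),
    ?_, ?_, ?_, ?_⟩
  · intro ξ
    exact mul_nonneg (by positivity) (mul_nonneg (hD0 _) (hno0 _))
  · rw [← Finset.mul_sum, Fintype.sum_prod_type]
    dsimp only
    rw [Finset.sum_const, Finset.card_univ, Fintype.card_prod, Fintype.card_fin, ← hm,
      nsmul_eq_mul]
    have h1 : ∑ ω : (Fin n → Fin N) × (Fin N × Fin N), D ω * no ω.1 = p0 := by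
      rw [Fintype.sum_prod_type, hp0]
      unfold Ex
      refine Finset.sum_congr rfl fun Z _ => ?_
      rw [hD]
      dsimp only
      have : ∀ p : Fin N × Fin N, (∏ i, lam (Z i)) * wt N p * no Z =
          ((∏ i, lam (Z i)) * no Z) * wt N p := fun p => by ring
      simp only [this]
      rw [← Finset.mul_sum, wt_sum hN1, mul_one]
    rw [h1]
    push_cast
    field_simp
  · intro ξ hξ
    have h1 : no ξ.2.1 ≠ 0 := by
      intro h
      apply hξ
      dsimp only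
      rw [h, mul_zero, mul_zero]
    have h2 : wt N ξ.2.2 ≠ 0 := by
      intro h
      apply hξ
      dsimp only
      rw [hD]
      dsimp only
      rw [h, mul_zero, zero_mul, mul_zero]
    have h3 : ¬ SumYes (arr ξ.2.1) := by
      intro h
      apply h1
      rw [hno]
      dsimp only
      rw [if_pos h]
    have h4 : ξ.2.2 ∈ noOver N := by
      by_contra h
      apply h2
      unfold wt
      rw [if_neg h]
    dsimp only
    refine ⟨?_, h3, ?_, planted_yes ξ.1 ξ.2.1 ξ.2.2 h4⟩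
    · subst hN
      exact arr_inst _
    · subst hN
      exact arr_inst _
  · intro T P hT hTn hP M hM
    obtain ⟨l, A, hl, hTl, hKl, hA, hsX, hX⟩ := hpar n T hn1 hT hTn
    obtain ⟨X, hXdef⟩ : ∃ X, X = 192 * T * (3 * l + A) * l := ⟨_, rfl⟩
    rw [← hXdef] at hsX hX
    have hX1 : (1 : ℝ) ≤ X := by exact_mod_cast (by omega : 1 ≤ X)
    have hnK : n ^ K ≤ n ^ (K + 2) := Nat.pow_le_pow_right hn1' (by omega)
    have hn2K : n ^ 2 ≤ n ^ (K + 2) := Nat.pow_le_pow_right hn1' (by omega)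
    have hPn : P ≤ n ^ 2 := by
      have h1 : (n : ℝ) ^ (2 - ε) ≤ (n : ℝ) ^ (2 : ℝ) :=
        Real.rpow_le_rpow_of_exponent_le hnR1 (by linarith)
      have h2 : (n : ℝ) ^ (2 : ℝ) = ((n ^ 2 : ℕ) : ℝ) := by
        rw [Nat.cast_pow, ← Real.rpow_natCast]
        norm_num
      have h3 := hP.trans h1
      rw [h2] at h3
      exact_mod_cast h3
    have hmain := tuple2 (K := Fin (n / 4) × Fin (n / 4)) M (arr_blk (n := n) (N := N)) hl0 hl1
      pos3 pos3_inj (Kl := n ^ K) (l := l) (A := A) (T := T) (L := 2) (X := X) hT hl hTl hM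
      (by omega) (by omega) le_rfl hXdef (by omega) (B3 n) pos3_count
      (Ω := (Fin n → Fin N) × (Fin N × Fin N)) (fun _ => D) (fun _ => hD0) (fun _ ω => ω.1)
      (fun _ ω => ![ω.2.1, ω.2.2, ω.2.1 + ω.2.2]) (C0 := 2) (by norm_num) (by
        intro κ H hH1 hH2 G hG0 hG
        rw [Fintype.sum_prod_type]
        dsimp only
        have h1 : ∀ Z : Fin n → Fin N, ∑ p : Fin N × Fin N,
            D (Z, p) * G Z ![p.1, p.2, p.1 + p.2] ≤ (∏ i, lam (Z i)) *
              (2 * Ex lam (fun y => G Z y)) := by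
          intro Z
          have h2 := triples_dom H (by omega) (G Z) (hG0 Z) (hG Z)
          rw [← hlam] at h2
          refine le_trans (le_of_eq ?_) (mul_le_mul_of_nonneg_left h2 (hprod Z))
          rw [hD, Finset.mul_sum]
          refine Finset.sum_congr rfl fun p _ => ?_
          dsimp only
          ring
        refine (Finset.sum_le_sum fun Z _ => h1 Z).trans (le_of_eq ?_)
        rw [← Ex_smul]
        rfl)
    -- the bound
    have hsum : ∑ H ∈ univ.filter (fun H : Finset (Fin 3) => 1 ≤ H.card ∧ H.card ≤ 2 * (2 - 1)),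
        (X : ℝ) ^ (8 * T * H.card) * ((if H.card < 2 then (1 : ℝ) else (P : ℝ)) *
          (B3 n H.card : ℝ) +
          (Fintype.card (Fin (n / 4) × Fin (n / 4)) : ℝ) * (1 / 2) ^ A) ≤
        8 * ((n : ℝ) ^ (ε / 2) * (m + P + 1)) := by
      have h1 : ∀ H ∈ univ.filter (fun H : Finset (Fin 3) => 1 ≤ H.card ∧ H.card ≤ 2 * (2 - 1)),
          (X : ℝ) ^ (8 * T * H.card) * ((if H.card < 2 then (1 : ℝ) else (P : ℝ)) *
          (B3 n H.card : ℝ) +
          (Fintype.card (Fin (n / 4) × Fin (n / 4)) : ℝ) * (1 / 2) ^ A) ≤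
          (n : ℝ) ^ (ε / 2) * (m + P + 1) := by
        intro H hH
        obtain ⟨hH1, hH2⟩ := (Finset.mem_filter.1 hH).2
        have h2 : (X : ℝ) ^ (8 * T * H.card) ≤ (n : ℝ) ^ (ε / 2) := by
          refine le_trans ?_ hX
          apply pow_le_pow_right₀ hX1
          exact Nat.mul_le_mul_left _ (by omega)
        have h3 : (Fintype.card (Fin (n / 4) × Fin (n / 4)) : ℝ) * (1 / 2) ^ A ≤ 1 := by
          rw [Fintype.card_prod, Fintype.card_fin, one_div_pow, mul_one_div,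
            div_le_one (by positivity)]
          have h4 : n / 4 * (n / 4) ≤ 2 ^ A := by
            refine le_trans ?_ (hn2K.trans hA)
            rw [pow_two]
            exact Nat.mul_le_mul (Nat.div_le_self _ _) (Nat.div_le_self _ _)
          exact_mod_cast h4
        have h4 : (if H.card < 2 then (1 : ℝ) else (P : ℝ)) * (B3 n H.card : ℝ) ≤ m + P := by
          have hPR : (0 : ℝ) ≤ P := Nat.cast_nonneg P
          by_cases hc : H.card < 2
          · have hc1 : H.card = 1 := by omega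
            rw [if_pos hc, one_mul]
            unfold B3
            rw [if_pos hc1, ← hm]
            linarith
          · have hc1 : H.card ≠ 1 := by omega
            rw [if_neg hc]
            unfold B3
            rw [if_neg hc1, Nat.cast_one, mul_one]
            linarith
        exact mul_le_mul h2 (by linarith) (by positivity) (by positivity)
      refine (Finset.sum_le_card_nsmul _ _ _ h1).trans ?_
      rw [nsmul_eq_mul]
      apply mul_le_mul_of_nonneg_right _ (by positivity)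
      have h2 : (univ.filter (fun H : Finset (Fin 3) =>
          1 ≤ H.card ∧ H.card ≤ 2 * (2 - 1))).card ≤ 8 := by
        refine (Finset.card_le_univ _).trans ?_
        rw [Fintype.card_finset, Fintype.card_fin]
        norm_num
      exact_mod_cast h2
    have htot : ∑ κ : Fin (n / 4) × Fin (n / 4), ∑ ω : (Fin n → Fin N) × (Fin N × Fin N),
        D ω * (if M.result T (arr ω.1) ≠
        M.result T (arr (Function.extend (pos3 κ) ![ω.2.1, ω.2.2, ω.2.1 + ω.2.2] ω.1))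
          then (1 : ℝ) else 0) ≤ 16 * ((n : ℝ) ^ (ε / 2) * (m + P + 1)) := by
      refine hmain.trans ?_
      linarith
    rw [Fintype.sum_prod_type]
    dsimp only
    have h1 : ∀ κ : Fin (n / 4) × Fin (n / 4), ∑ ω : (Fin n → Fin N) × (Fin N × Fin N),
        (1 / ((m : ℝ) ^ 2 * p0)) * (D ω * no ω.1) * (if M.result T (arr ω.1) ≠
        M.result T (arr (Function.extend (pos3 κ) ![ω.2.1, ω.2.2, ω.2.1 + ω.2.2] ω.1))
          then (1 : ℝ) else 0) ≤ (2 / (m : ℝ) ^ 2) *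
        ∑ ω : (Fin n → Fin N) × (Fin N × Fin N), D ω * (if M.result T (arr ω.1) ≠
        M.result T (arr (Function.extend (pos3 κ) ![ω.2.1, ω.2.2, ω.2.1 + ω.2.2] ω.1))
          then (1 : ℝ) else 0) := by
      intro κ
      rw [Finset.mul_sum]
      refine Finset.sum_le_sum fun ω _ => ?_
      have h2 : 1 / ((m : ℝ) ^ 2 * p0) ≤ 2 / (m : ℝ) ^ 2 := by
        rw [div_le_div_iff₀ (by positivity) (by positivity)]
        nlinarith [sq_nonneg (m : ℝ)]
      have h3 : (0 : ℝ) ≤ (if M.result T (arr ω.1) ≠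
        M.result T (arr (Function.extend (pos3 κ) ![ω.2.1, ω.2.2, ω.2.1 + ω.2.2] ω.1))
          then (1 : ℝ) else 0) := by split_ifs <;> norm_num
      have h4 : D ω * no ω.1 ≤ D ω := by
        have := mul_le_mul_of_nonneg_left (hno1 ω.1) (hD0 ω)
        rwa [mul_one] at this
      calc (1 / ((m : ℝ) ^ 2 * p0)) * (D ω * no ω.1) * _ ≤ (2 / (m : ℝ) ^ 2) * D ω * _ :=
            mul_le_mul_of_nonneg_right (mul_le_mul h2 h4 (mul_nonneg (hD0 _) (hno0 _))
              (by positivity)) h3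
        _ = _ := by ring
    refine (Finset.sum_le_sum fun κ _ => h1 κ).trans ?_
    rw [← Finset.mul_sum]
    refine (mul_le_mul_of_nonneg_left htot (by positivity)).trans ?_
    have h2 : (m : ℝ) + P + 1 ≤ 2 * (n : ℝ) ^ (2 - ε) := by
      have h3 : (m : ℝ) + 1 ≤ n := by
        have : m + 1 ≤ n := by omega
        exact_mod_cast this
      have h4 : (n : ℝ) ≤ (n : ℝ) ^ (2 - ε) := by
        calc (n : ℝ) = (n : ℝ) ^ (1 : ℝ) := (Real.rpow_one _).symm
          _ ≤ (n : ℝ) ^ (2 - ε) := Real.rpow_le_rpow_of_exponent_le hnR1 (by linarith)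
      linarith
    have h3 : 2 / (m : ℝ) ^ 2 ≤ 128 / (n : ℝ) ^ 2 := by
      rw [div_le_div_iff₀ (by positivity) (by positivity)]
      have : ((n : ℝ) / 8) ^ 2 ≤ (m : ℝ) ^ 2 := pow_le_pow_left₀ (by positivity) hmR 2
      nlinarith
    calc 2 / (m : ℝ) ^ 2 * (16 * ((n : ℝ) ^ (ε / 2) * (m + P + 1)))
        ≤ 128 / (n : ℝ) ^ 2 * (16 * ((n : ℝ) ^ (ε / 2) * (2 * (n : ℝ) ^ (2 - ε)))) := by
          apply mul_le_mul h3 _ (by positivity) (by positivity)
          apply mul_le_mul_of_nonneg_left _ (by norm_num)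
          exact mul_le_mul_of_nonneg_left h2 (by positivity)
      _ = 4096 * (n : ℝ) ^ (-(ε / 2)) := by
          have h4 : (n : ℝ) ^ (ε / 2) * (n : ℝ) ^ (2 - ε) = (n : ℝ) ^ (-(ε / 2)) * (n : ℝ) ^ 2 := by
            rw [← Real.rpow_natCast (n : ℝ) 2, ← Real.rpow_add hnR, ← Real.rpow_add hnR]
            congr 1
            push_cast
            ring
          calc 128 / (n : ℝ) ^ 2 * (16 * ((n : ℝ) ^ (ε / 2) * (2 * (n : ℝ) ^ (2 - ε)))) =
              4096 / (n : ℝ) ^ 2 * ((n : ℝ) ^ (ε / 2) * (n : ℝ) ^ (2 - ε)) := by ring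
            _ = 4096 / (n : ℝ) ^ 2 * ((n : ℝ) ^ (-(ε / 2)) * (n : ℝ) ^ 2) := by rw [h4]
            _ = 4096 * (n : ℝ) ^ (-(ε / 2)) := by field_simp
      _ ≤ (n : ℝ) ^ (ε / 6) * (n : ℝ) ^ (-(ε / 2)) :=
          mul_le_mul_of_nonneg_right hbig (by positivity)
      _ = (n : ℝ) ^ (-(ε / 3)) := by
          rw [← Real.rpow_add hnR]
          congr 1
          ring

end Pool.Agent.W964.Wd
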