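import Mathlib
import Pool.Agent.W964.Wd.JuntaDefs

/-!
DNF formulas and the error of a hypothesis: definitions.
-/

namespace Pool.Agent.W964.Wd

open Finset

/-- `f` is computed by a DNF formula with at most `s` gates: an OR of `r ≤ s - 1` terms, where the
term `t i` is the AND of the literals `x j = b`, `(j, b) ∈ t i`. -/
def IsDnf {n : ℕ} (s : ℕ) (f : (Fin n → Bool) → Bool) : Prop :=
  ∃ (r : ℕ) (t : Fin r → Finset (Fin n × Bool)), r + 1 ≤ s ∧
    ∀ x, f x = true ↔ ∃ i, ∀ p ∈ t i, x p.1 = p.2

/-- The probability that the hypothesis `h` is wrong on a uniformly distributed point. -/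
noncomputable def err {n : ℕ} (f h : (Fin n → Bool) → Bool) : ℝ :=
  ((univ.filter (fun x : Fin n → Bool => h x ≠ f x)).card : ℝ) / 2 ^ n

end Pool.Agent.W964.Wd
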