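import Mathlib
import Pool.Agent.W964.Wd.Junta
import Pool.Agent.W964.Wd.DnfDefs

/-!
Parities of few variables: they are balanced, have small DNF formulas, and no hypothesis is
correlated with many of them.
-/

set_option linter.unusedSectionVars false

namespace Pool.Agent.W964.Wd

open Finset H568R2 H592R3 Pool.Agent.W964.Pram

/-- The sign of a bit. -/
noncomputable def sg (b : Bool) : ℝ := if b = true then -1 else 1

lemma sg_not (b : Bool) : sg (!b) = - sg b := by
  cases b <;> simp [sg]

lemma sg_sq (b : Bool) : sg b * sg b = 1 := by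
  cases b <;> simp [sg]

lemma sg_cases (b : Bool) : sg b = 1 ∨ sg b = -1 := by
  cases b <;> simp [sg]

/-- The parity as a sign. -/
noncomputable def chi {k : ℕ} (y : Fin k → Bool) : ℝ := ∏ h, sg (y h)

lemma chi_cases {k : ℕ} (y : Fin k → Bool) : chi y = 1 ∨ chi y = -1 := by
  unfold chi
  refine Finset.prod_induction _ (fun z : ℝ => z = 1 ∨ z = -1) ?_ (Or.inl rfl)
    (fun h _ => sg_cases _)
  rintro a b (rfl | rfl) (rfl | rfl) <;> norm_num

lemma chi_sq {k : ℕ} (y : Fin k → Bool) : chi y * chi y = 1 := by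
  rcases chi_cases y with h | h <;> rw [h] <;> norm_num

lemma chi_flip {k : ℕ} (y : Fin k → Bool) (h0 : Fin k) :
    chi (Function.update y h0 (!y h0)) = - chi y := by
  classical
  unfold chi
  rw [← Finset.mul_prod_erase univ _ (Finset.mem_univ h0),
    ← Finset.mul_prod_erase univ (fun h => sg (y h)) (Finset.mem_univ h0)]
  rw [Function.update_self, sg_not, neg_mul]
  congr 2
  refine Finset.prod_congr rfl fun h hh => ?_
  rw [Function.update_of_ne (Finset.ne_of_mem_erase hh)]

open Classical in
/-- The parity. -/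
noncomputable def par {k : ℕ} (y : Fin k → Bool) : Bool := decide (chi y = -1)

lemma sg_par {k : ℕ} (y : Fin k → Bool) : sg (par y) = chi y := by
  unfold par sg
  rcases chi_cases y with h | h
  · rw [h]
    norm_num
  · rw [h]
    norm_num

lemma par_flip {k : ℕ} (y : Fin k → Bool) (h0 : Fin k) :
    par (Function.update y h0 (!y h0)) = !par y := by
  have h1 := chi_flip y h0
  rw [← sg_par, ← sg_par, ← sg_not] at h1
  revert h1
  cases par (Function.update y h0 (!y h0)) <;> cases par y <;> simp [sg] <;> norm_num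

lemma flip_flip {k : ℕ} (y : Fin k → Bool) (h0 : Fin k) :
    Function.update (Function.update y h0 (!y h0)) h0
      (!(Function.update y h0 (!y h0)) h0) = y := by
  rw [Function.update_self, Function.update_idem, Bool.not_not, Function.update_eq_self]

lemma par_bal {k : ℕ} (hk : 1 ≤ k) : Balanced (k - 1) (par (k := k)) := by
  classical
  intro H hH y
  obtain ⟨h0, hh0⟩ : ∃ h0, h0 ∉ H := by
    by_contra hcon
    push Not at hcon
    have : H = univ := Finset.eq_univ_iff_forall.2 hcon
    rw [this, Finset.card_univ, Fintype.card_fin] at hH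
    omega
  have h1 : (univ.filter (fun x : Fin k → Bool => (∀ j ∈ H, x j = y j) ∧ par x = true)).card =
      (univ.filter (fun x : Fin k → Bool => (∀ j ∈ H, x j = y j) ∧ par x = false)).card := by
    refine Finset.card_nbij' (fun x => Function.update x h0 (!x h0))
      (fun x => Function.update x h0 (!x h0)) ?_ ?_ (fun x _ => flip_flip x h0)
      (fun x _ => flip_flip x h0)
    · intro x hx
      obtain ⟨_, h2, h3⟩ := Finset.mem_filter.1 (Finset.mem_coe.1 hx)
      refine Finset.mem_coe.2 (Finset.mem_filter.2 ⟨Finset.mem_univ _, fun j hj => ?_, ?_⟩)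
      · have hne : j ≠ h0 := fun h => by
          subst h
          exact hh0 hj
        show Function.update x h0 (!x h0) j = y j
        rw [Function.update_of_ne hne]
        exact h2 j hj
      · rw [par_flip, h3]
        rfl
    · intro x hx
      obtain ⟨_, h2, h3⟩ := Finset.mem_filter.1 (Finset.mem_coe.1 hx)
      refine Finset.mem_coe.2 (Finset.mem_filter.2 ⟨Finset.mem_univ _, fun j hj => ?_, ?_⟩)
      · have hne : j ≠ h0 := fun h => by
          subst h
          exact hh0 hj
        show Function.update x h0 (!x h0) j = y j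
        rw [Function.update_of_ne hne]
        exact h2 j hj
      · rw [par_flip, h3]
        rfl
  have h2 : (univ.filter (fun x : Fin k → Bool => (∀ j ∈ H, x j = y j) ∧ par x = true)).card +
      (univ.filter (fun x : Fin k → Bool => (∀ j ∈ H, x j = y j) ∧ par x = false)).card =
      (univ.filter (fun x : Fin k → Bool => ∀ j ∈ H, x j = y j)).card := by
    rw [← Finset.card_union_of_disjoint]
    · congr 1
      ext x
      simp only [Finset.mem_union, Finset.mem_filter, Finset.mem_univ, true_and]
      constructor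
      · rintro (h | h)
        · exact h.1
        · exact h.1
      · intro h
        cases hx : par x
        · exact Or.inr ⟨h, rfl⟩
        · exact Or.inl ⟨h, rfl⟩
    · rw [Finset.disjoint_left]
      intro x hx hx'
      have e1 := (Finset.mem_filter.1 hx).2.2
      have e2 := (Finset.mem_filter.1 hx').2.2
      rw [e1] at e2
      exact Bool.noConfusion e2
  have h3 : 2 * (univ.filter (fun x : Fin k → Bool =>
      (∀ j ∈ H, x j = y j) ∧ par x = true)).card =
      (univ.filter (fun x : Fin k → Bool => ∀ j ∈ H, x j = y j)).card := by omega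
  convert h3 using 3

/-- Parities of `k` variables have DNF formulas with `2 ^ (k - 1) + 1` gates. -/
lemma par_dnf {n k s : ℕ} (hk : 1 ≤ k) (hs : 2 ^ (k - 1) + 1 ≤ s) (v : Fin k → Fin n) :
    IsDnf s (tgt par v) := by
  classical
  obtain ⟨Y, hY⟩ : ∃ Y : Finset (Fin k → Bool), Y = univ.filter (fun y => par y = true) :=
    ⟨_, rfl⟩
  have hc : Y.card = 2 ^ (k - 1) := by
    have h1 := par_bal hk ∅ (by simp) (fun _ => false)
    have h2 : (univ.filter (fun x : Fin k → Bool =>
        (∀ j ∈ (∅ : Finset (Fin k)), x j = (fun _ => false) j) ∧ par x = true)) = Y := by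
      rw [hY]
      ext x
      simp
    have h3 : (univ.filter (fun x : Fin k → Bool =>
        ∀ j ∈ (∅ : Finset (Fin k)), x j = (fun _ => false) j)).card = 2 ^ k := by
      have : (univ.filter (fun x : Fin k → Bool =>
        ∀ j ∈ (∅ : Finset (Fin k)), x j = (fun _ => false) j)) = univ := by
        ext x
        simp
      rw [this, Finset.card_univ, Fintype.card_fun, Fintype.card_fin, Fintype.card_bool]
    have h4 : 2 * Y.card = 2 ^ k := by
      rw [← h3, ← h2]
      convert h1 using 3
    have h5 : 2 ^ k = 2 * 2 ^ (k - 1) := by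
      rw [← pow_succ']
      congr 1
      omega
    omega
  refine ⟨Y.card, fun i => univ.image (fun h => (v h, ((Y.equivFin.symm i).1 : Fin k → Bool) h)),
    by rw [hc]; exact hs, ?_⟩
  intro x
  constructor
  · intro hx
    have hm : (fun h => x (v h)) ∈ Y := by
      rw [hY, Finset.mem_filter]
      exact ⟨Finset.mem_univ _, hx⟩
    refine ⟨Y.equivFin ⟨_, hm⟩, ?_⟩
    intro p hp
    obtain ⟨h, _, rfl⟩ := Finset.mem_image.1 hp
    rw [Equiv.symm_apply_apply]
  · rintro ⟨i, hi⟩
    have h1 : (fun h => x (v h)) = (Y.equivFin.symm i).1 := by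
      funext h
      exact hi _ (Finset.mem_image_of_mem _ (Finset.mem_univ h))
    have h2 : (fun h => x (v h)) ∈ Y := by
      rw [h1]
      exact (Y.equivFin.symm i).2
    rw [hY, Finset.mem_filter] at h2
    exact h2.2

/-- Different parities are orthogonal. -/
lemma chi_orth {n k : ℕ} {κ κ' : Fin k → Fin (n / k)} (h : κ ≠ κ') :
    ∑ x : Fin n → Bool, chi (fun i => x (pk κ i)) * chi (fun i => x (pk κ' i)) = 0 := by
  classical
  obtain ⟨h0, hh0⟩ := Function.ne_iff.1 h
  obtain ⟨j, hj⟩ : ∃ j, j = pk κ h0 := ⟨_, rfl⟩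
  have hj' : ∀ i, pk κ' i ≠ j := by
    intro i hi
    rw [hj] at hi
    have h1 := pk_eq hi
    have h2 := h1.1
    subst h2
    exact hh0 (Fin.ext h1.2.symm)
  have h1 : ∀ x : Fin n → Bool, (fun i => Function.update x j (!x j) (pk κ i)) =
      Function.update (fun i => x (pk κ i)) h0 (!(fun i => x (pk κ i)) h0) := by
    intro x
    funext i
    by_cases hi : i = h0
    · subst hi
      rw [Function.update_self, ← hj, Function.update_self]
      show (!x j) = !x (pk κ i)
      rw [hj]
    · rw [Function.update_of_ne hi, Function.update_of_ne]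
      rw [hj]
      exact fun he => hi (pk_inj κ he)
  have h2 : ∀ x : Fin n → Bool, (fun i => Function.update x j (!x j) (pk κ' i)) =
      fun i => x (pk κ' i) := by
    intro x
    funext i
    rw [Function.update_of_ne (hj' i)]
  have h3 : ∑ x : Fin n → Bool, chi (fun i => x (pk κ i)) * chi (fun i => x (pk κ' i)) =
      ∑ x : Fin n → Bool, - (chi (fun i => x (pk κ i)) * chi (fun i => x (pk κ' i))) := by
    refine Finset.sum_nbij' (fun x => Function.update x j (!x j))
      (fun x => Function.update x j (!x j)) (fun _ _ => Finset.mem_univ _)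
      (fun _ _ => Finset.mem_univ _) (fun x _ => flip_flip x j) (fun x _ => flip_flip x j) ?_
    intro x _
    rw [h1, h2, chi_flip]
    ring
  rw [Finset.sum_neg_distrib] at h3
  linarith

open Classical in
/-- Few parities are correlated with a hypothesis. -/
lemma par_count {n k : ℕ} (hyp : (Fin n → Bool) → Bool) {γ : ℝ} (hγ : 0 < γ) :
    ((univ.filter (fun κ : Fin k → Fin (n / k) =>
      err (tgt par (pk κ)) hyp ≤ 1 / 2 - γ)).card : ℝ) ≤ 1 / (4 * γ ^ 2) := by
  obtain ⟨G, hG⟩ : ∃ G : Finset (Fin k → Fin (n / k)), G = univ.filter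
    (fun κ : Fin k → Fin (n / k) => err (tgt par (pk κ)) hyp ≤ 1 / 2 - γ) := ⟨_, rfl⟩
  rw [← hG]
  have h2n : (0 : ℝ) < 2 ^ n := by positivity
  obtain ⟨F, hF⟩ : ∃ F : (Fin n → Bool) → ℝ, F = fun x => ∑ κ ∈ G, chi (fun i => x (pk κ i)) :=
    ⟨_, rfl⟩
  -- the correlation
  have h1 : ∀ κ ∈ G, 2 ^ n * (2 * γ) ≤ ∑ x : Fin n → Bool, sg (hyp x) *
      chi (fun i => x (pk κ i)) := by
    intro κ hκ
    rw [hG] at hκ
    have h2 := (Finset.mem_filter.1 hκ).2
    have h3 : ∀ x : Fin n → Bool, sg (hyp x) * chi (fun i => x (pk κ i)) =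
        1 - 2 * (if hyp x ≠ tgt par (pk κ) x then (1 : ℝ) else 0) := by
      intro x
      rw [← sg_par]
      show sg (hyp x) * sg (tgt par (pk κ) x) = _
      cases hyp x <;> cases tgt par (pk κ) x <;> simp [sg] <;> norm_num
    rw [Finset.sum_congr rfl fun x _ => h3 x, Finset.sum_sub_distrib, ← Finset.mul_sum,
      Finset.sum_boole, Finset.sum_const, Finset.card_univ, Fintype.card_fun, Fintype.card_fin,
      Fintype.card_bool, nsmul_eq_mul, mul_one]
    unfold err at h2
    rw [div_le_iff₀ h2n] at h2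
    push_cast
    have h4 : ((univ.filter (fun x : Fin n → Bool => hyp x ≠ tgt par (pk κ) x)).card : ℝ) ≤
        (1 / 2 - γ) * 2 ^ n := by
      convert h2 using 3
    linarith
  have h2 : (G.card : ℝ) * (2 ^ n * (2 * γ)) ≤ ∑ x : Fin n → Bool, sg (hyp x) * F x := by
    rw [hF]
    simp only [Finset.mul_sum]
    rw [Finset.sum_comm]
    have h3 := Finset.card_nsmul_le_sum G _ _ h1
    rw [nsmul_eq_mul] at h3
    exact h3
  have h3 : (∑ x : Fin n → Bool, sg (hyp x) * F x) ^ 2 ≤
      (∑ x : Fin n → Bool, sg (hyp x) ^ 2) * ∑ x : Fin n → Bool, F x ^ 2 :=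
    Finset.sum_mul_sq_le_sq_mul_sq _ _ _
  have h4 : ∑ x : Fin n → Bool, sg (hyp x) ^ 2 = 2 ^ n := by
    have : ∀ x : Fin n → Bool, sg (hyp x) ^ 2 = 1 := by
      intro x
      rw [sq, sg_sq]
    rw [Finset.sum_congr rfl fun x _ => this x, Finset.sum_const, Finset.card_univ,
      Fintype.card_fun, Fintype.card_fin, Fintype.card_bool, nsmul_eq_mul, mul_one]
    push_cast
    rfl
  have h5 : ∑ x : Fin n → Bool, F x ^ 2 = 2 ^ n * G.card := by
    have e1 : ∀ x : Fin n → Bool, F x ^ 2 = ∑ κ ∈ G, ∑ κ' ∈ G,
        chi (fun i => x (pk κ i)) * chi (fun i => x (pk κ' i)) := by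
      intro x
      rw [hF, sq, Finset.sum_mul_sum]
    rw [Finset.sum_congr rfl fun x _ => e1 x, Finset.sum_comm]
    have e2 : ∀ κ ∈ G, ∑ x : Fin n → Bool, ∑ κ' ∈ G,
        chi (fun i => x (pk κ i)) * chi (fun i => x (pk κ' i)) = 2 ^ n := by
      intro κ hκ
      rw [Finset.sum_comm, Finset.sum_eq_single κ]
      · rw [Finset.sum_congr rfl fun x _ => chi_sq _, Finset.sum_const, Finset.card_univ,
          Fintype.card_fun, Fintype.card_fin, Fintype.card_bool, nsmul_eq_mul, mul_one]
        push_cast
        rfl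
      · intro κ' _ hne
        exact chi_orth (Ne.symm hne)
      · intro h
        exact absurd hκ h
    rw [Finset.sum_congr rfl e2, Finset.sum_const, nsmul_eq_mul]
    ring
  rw [h4, h5] at h3
  have h6 : ((G.card : ℝ) * (2 ^ n * (2 * γ))) ^ 2 ≤ 2 ^ n * (2 ^ n * G.card) :=
    (pow_le_pow_left₀ (by positivity) h2 2).trans h3
  rcases Nat.eq_zero_or_pos G.card with hz | hp
  · rw [hz, Nat.cast_zero]
    positivity
  · have hpR : (0 : ℝ) < G.card := by exact_mod_cast hp
    rw [le_div_iff₀ (by positivity)]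
    have h7 : (2 ^ n * 2 ^ n * (G.card : ℝ)) * (G.card * (4 * γ ^ 2)) ≤
        (2 ^ n * 2 ^ n * (G.card : ℝ)) * 1 := by nlinarith
    exact le_of_mul_le_mul_left h7 (by positivity)

end Pool.Agent.W964.Wd
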