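import Mathlib
import Pool.Agent.W964.Wd.Dnf

/-!
Learning DNF formulas from uniform random examples is hard for parallel machines.
-/

set_option linter.unusedSectionVars false

namespace Pool.Agent.W964.Wd

open Finset H568R2 H592R3 Pool.Agent.W964.Pram Filter

theorem dnf_core (ε : ℝ) (hε : 0 < ε) (hε1 : ε ≤ 1) (K : ℕ) : ∃ δ : ℝ, 0 < δ ∧ ∃ n₀ : ℕ,
    ∀ n : ℕ, n₀ ≤ n → ∀ (s T P N : ℕ), 5 ≤ s → 1 ≤ T →
      T * Real.log (Real.log s * Real.log n) ≤ δ * Real.log n →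
      (P : ℝ) ≤ (n : ℝ) ^ ((1 - ε) * (Real.logb 2 (s - 1) / 2)) →
      ∀ R : RandMachine (Fin N → Bool) (Option (Fin n)) P, R.Lists (n ^ K) →
      ∀ dec : (ω : R.Ω) → (R.mach ω).V → ((Fin n → Bool) → Bool),
      ∃ f : (Fin n → Bool) → Bool, IsDnf s f ∧
        learnProb R T f (fun ω v => err f (dec ω v) ≤ 1 / 2 - (n : ℝ) ^ (-(1 / 8 : ℝ))) ≤
          (n : ℝ) ^ (-(ε / 3)) := by
  classical
  obtain ⟨δ, hδ, m₁, H⟩ := learn_rand ε hε hε1 K
  refine ⟨δ / 2, by positivity, max (max m₁ 21) (⌈(2 : ℝ) ^ (6 / ε)⌉₊ + 1), ?_⟩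
  intro n hn s T P N hs hT hTn hP R hR dec
  have hn1 : m₁ ≤ n := le_trans (le_trans (le_max_left _ _) (le_max_left _ _)) hn
  have hn21 : 21 ≤ n := le_trans (le_trans (le_max_right _ _) (le_max_left _ _)) hn
  have hn2 : ⌈(2 : ℝ) ^ (6 / ε)⌉₊ + 1 ≤ n := le_trans (le_max_right _ _) hn
  have hm0 : (1 : ℝ) ≤ n := by exact_mod_cast (by omega : 1 ≤ n)
  have hmp : (0 : ℝ) < n := by linarith
  have hbig : (2 : ℝ) ≤ (n : ℝ) ^ (ε / 6) := by
    have h1 : (2 : ℝ) ^ (6 / ε) ≤ n :=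
      (Nat.le_ceil _).trans (by exact_mod_cast (by omega : ⌈(2 : ℝ) ^ (6 / ε)⌉₊ ≤ n))
    have h2 := Real.rpow_le_rpow (by positivity) h1 (by positivity : 0 ≤ ε / 6)
    rw [← Real.rpow_mul (by norm_num)] at h2
    have h3 : 6 / ε * (ε / 6) = 1 := by field_simp
    rwa [h3, Real.rpow_one] at h2
  have hlogn : 3 ≤ Real.log n := by
    rw [Real.le_log_iff_exp_le hmp]
    have h1 : (21 : ℝ) ≤ n := by exact_mod_cast hn21
    have h2 : Real.exp 3 ≤ 21 := by
      have h3 : Real.exp 3 = Real.exp 1 ^ 3 := by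
        rw [← Real.exp_nat_mul]
        norm_num
      rw [h3]
      have h4 := Real.exp_one_lt_d9
      have h5 := Real.exp_pos 1
      calc Real.exp 1 ^ 3 ≤ (2.7182818286 : ℝ) ^ 3 := pow_le_pow_left₀ h5.le h4.le 3
        _ ≤ 21 := by norm_num
    linarith
  have hs5 : (5 : ℝ) ≤ s := by exact_mod_cast hs
  have hlogs : 1 ≤ Real.log s := by
    rw [Real.le_log_iff_exp_le (by linarith)]
    have := Real.exp_one_lt_d9
    linarith
  -- the number of relevant variables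
  obtain ⟨k, hk⟩ : ∃ k, k = Nat.log 2 (s - 1) + 1 := ⟨_, rfl⟩
  have hk3 : 3 ≤ k := by
    have : 2 ≤ Nat.log 2 (s - 1) := Nat.le_log_of_pow_le (by norm_num) (by omega)
    omega
  have hks : 2 ^ (k - 1) + 1 ≤ s := by
    have h1 : 2 ^ Nat.log 2 (s - 1) ≤ s - 1 := Nat.pow_log_le_self 2 (by omega)
    have h2 : k - 1 = Nat.log 2 (s - 1) := by omega
    rw [h2]
    omega
  have hsk : s - 1 < 2 ^ k := by
    rw [hk]
    exact Nat.lt_pow_succ_log_self (by norm_num) _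
  have hsub : ((s - 1 : ℕ) : ℝ) = (s : ℝ) - 1 := by
    rw [Nat.cast_sub (by omega)]
    norm_num
  have hlogb : Real.logb 2 (s - 1) ≤ k := by
    rw [Real.logb_le_iff_le_rpow (by norm_num) (by linarith), Real.rpow_natCast, ← hsub]
    exact_mod_cast hsk.le
  have hl2 : 1 / 2 ≤ Real.log 2 := by
    have := Real.log_two_gt_d9
    linarith
  have hkR : (k : ℝ) ≤ 3 * Real.log s := by
    have h1 : (2 : ℝ) ^ (k - 1) ≤ s := by
      have h2 : 2 ^ (k - 1) ≤ s := by omega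
      exact_mod_cast h2
    have h3 := Real.log_le_log (by positivity) h1
    rw [Real.log_pow] at h3
    have h4 : ((k - 1 : ℕ) : ℝ) * (1 / 2) ≤ ((k - 1 : ℕ) : ℝ) * Real.log 2 :=
      mul_le_mul_of_nonneg_left hl2 (Nat.cast_nonneg _)
    have h5 : ((k - 1 : ℕ) : ℝ) = (k : ℝ) - 1 := by
      rw [Nat.cast_sub (by omega)]
      norm_num
    rw [h5] at h3 h4
    linarith
  have hkR0 : (3 : ℝ) ≤ k := by exact_mod_cast hk3
  have hTk : T * Real.log (k * Real.log n) ≤ δ * Real.log n := by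
    have h1 : Real.log (k * Real.log n) ≤ 2 * Real.log (Real.log s * Real.log n) := by
      have h2 : (k : ℝ) * Real.log n ≤ (Real.log s * Real.log n) ^ 2 := by
        have h3 : 3 ≤ Real.log s * Real.log n := by nlinarith
        calc (k : ℝ) * Real.log n ≤ (3 * Real.log s) * Real.log n :=
              mul_le_mul_of_nonneg_right hkR (by linarith)
          _ = 3 * (Real.log s * Real.log n) := by ring
          _ ≤ (Real.log s * Real.log n) * (Real.log s * Real.log n) :=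
              mul_le_mul_of_nonneg_right h3 (by linarith)
          _ = (Real.log s * Real.log n) ^ 2 := by ring
      have h3 := Real.log_le_log (by positivity) h2
      rw [Real.log_pow] at h3
      exact_mod_cast h3
    calc T * Real.log (k * Real.log n) ≤ T * (2 * Real.log (Real.log s * Real.log n)) :=
          mul_le_mul_of_nonneg_left h1 (Nat.cast_nonneg T)
      _ = 2 * (T * Real.log (Real.log s * Real.log n)) := by ring
      _ ≤ 2 * (δ / 2 * Real.log n) := mul_le_mul_of_nonneg_left hTn (by norm_num)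
      _ = δ * Real.log n := by ring
  have hPk : (P : ℝ) ≤ (n : ℝ) ^ ((1 - ε) * (((k - 1) / 2 + 1 : ℕ) : ℝ)) := by
    refine hP.trans (Real.rpow_le_rpow_of_exponent_le hm0 ?_)
    apply mul_le_mul_of_nonneg_left _ (by linarith)
    have h1 : k ≤ 2 * ((k - 1) / 2 + 1) := by omega
    have h2 : (k : ℝ) ≤ ((2 * ((k - 1) / 2 + 1) : ℕ) : ℝ) := by exact_mod_cast h1
    push_cast at h2 ⊢
    linarith
  obtain ⟨h1, h2, h3⟩ := H n hn1 k (k - 1) T P N par (by omega) (par_bal (by omega)) hT hTk hPk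
  have hn0 : (0 : ℝ) < ((n / k : ℕ) : ℝ) := by exact_mod_cast h1
  obtain ⟨κ, hκ⟩ := h3 R hR (fun κ ω v => err (tgt par (pk κ)) (dec ω v) ≤
      1 / 2 - (n : ℝ) ^ (-(1 / 8 : ℝ))) ((n : ℝ) ^ (-(3 / 4 : ℝ))) (by
      intro ω v
      refine (par_count (dec ω v) (by positivity)).trans ?_
      have h4 : (n : ℝ) ^ (3 / 4 : ℝ) ≤ ((n / k : ℕ) : ℝ) := by
        have h5 : (k : ℝ) ≤ (n : ℝ) ^ (-(3 / 4 : ℝ)) * ((n / k : ℕ) : ℝ) :=
          (div_le_iff₀ hn0).1 h2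
        have h6 : (n : ℝ) ^ (3 / 4 : ℝ) * ((n : ℝ) ^ (-(3 / 4 : ℝ)) * ((n / k : ℕ) : ℝ)) =
            ((n / k : ℕ) : ℝ) := by
          rw [← mul_assoc, ← Real.rpow_add hmp]
          norm_num
        rw [← h6]
        calc (n : ℝ) ^ (3 / 4 : ℝ) = (n : ℝ) ^ (3 / 4 : ℝ) * 1 := (mul_one _).symm
          _ ≤ (n : ℝ) ^ (3 / 4 : ℝ) * ((n : ℝ) ^ (-(3 / 4 : ℝ)) * ((n / k : ℕ) : ℝ)) :=
            mul_le_mul_of_nonneg_left (by linarith) (by positivity)
      have h5 : ((n : ℝ) ^ (3 / 4 : ℝ)) ^ 3 ≤ (((n / k) ^ k : ℕ) : ℝ) := by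
        rw [Nat.cast_pow]
        calc ((n : ℝ) ^ (3 / 4 : ℝ)) ^ 3 ≤ ((n / k : ℕ) : ℝ) ^ 3 :=
              pow_le_pow_left₀ (by positivity) h4 3
          _ ≤ ((n / k : ℕ) : ℝ) ^ k := pow_le_pow_right₀ (by exact_mod_cast h1) hk3
      have h6 : (n : ℝ) ^ (-(3 / 4 : ℝ)) * ((n : ℝ) ^ (3 / 4 : ℝ)) ^ 3 ≤
          (n : ℝ) ^ (-(3 / 4 : ℝ)) * (((n / k) ^ k : ℕ) : ℝ) :=
        mul_le_mul_of_nonneg_left h5 (by positivity)
      refine le_trans ?_ h6
      rw [← Real.rpow_natCast ((n : ℝ) ^ (3 / 4 : ℝ)) 3, ← Real.rpow_mul hmp.le,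
        ← Real.rpow_add hmp, ← Real.rpow_natCast _ 2, ← Real.rpow_mul hmp.le]
      rw [div_le_iff₀ (by positivity)]
      have h7 : (n : ℝ) ^ (-(3 / 4 : ℝ) + 3 / 4 * ((3 : ℕ) : ℝ)) *
          (4 * (n : ℝ) ^ (-(1 / 8 : ℝ) * ((2 : ℕ) : ℝ))) = 4 * (n : ℝ) ^ (5 / 4 : ℝ) := by
        rw [mul_left_comm, ← Real.rpow_add hmp]
        norm_num
      rw [h7]
      have h8 : (1 : ℝ) ≤ (n : ℝ) ^ (5 / 4 : ℝ) := Real.one_le_rpow hm0 (by norm_num)
      linarith)
  refine ⟨tgt par (pk κ), par_dnf (by omega) hks (pk κ), ?_⟩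
  have h4 : (n : ℝ) ^ (-(3 / 4 : ℝ)) ≤ (n : ℝ) ^ (-(ε / 2)) :=
    Real.rpow_le_rpow_of_exponent_le hm0 (by linarith)
  have h5 : 2 * (n : ℝ) ^ (-(ε / 2)) ≤ (n : ℝ) ^ (-(ε / 3)) := by
    calc 2 * (n : ℝ) ^ (-(ε / 2)) ≤ (n : ℝ) ^ (ε / 6) * (n : ℝ) ^ (-(ε / 2)) :=
          mul_le_mul_of_nonneg_right hbig (by positivity)
      _ = (n : ℝ) ^ (-(ε / 3)) := by
          rw [← Real.rpow_add hmp]
          congr 1
          ring
  have h6 : (n : ℝ) ^ (-(ε / 2)) + (n : ℝ) ^ (-(3 / 4 : ℝ)) ≤ (n : ℝ) ^ (-(ε / 3)) := by linarith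
  exact le_trans hκ h6

/-- The asymptotic form for formulas of size `n`. -/
theorem dnf_asym (K : ℕ) (T P : ℕ → ℕ) (hT : ∀ n, 1 ≤ T n)
    (hTo : (fun n : ℕ => (T n : ℝ) * Real.log (Real.log n)) =o[atTop]
      (fun n : ℕ => Real.log n))
    (hPo : (fun n : ℕ => Real.log (P n)) =o[atTop] (fun n : ℕ => Real.log n ^ 2)) :
    ∀ᶠ n : ℕ in atTop, ∀ (N : ℕ) (R : RandMachine (Fin N → Bool) (Option (Fin n)) (P n)),
      R.Lists (n ^ K) → ∀ dec : (ω : R.Ω) → (R.mach ω).V → ((Fin n → Bool) → Bool),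
      ∃ f : (Fin n → Bool) → Bool, IsDnf n f ∧
        learnProb R (T n) f (fun ω v => err f (dec ω v) ≤ 1 / 2 - (n : ℝ) ^ (-(1 / 8 : ℝ))) ≤
          (n : ℝ) ^ (-(1 / 6 : ℝ)) := by
  obtain ⟨δ, hδ, n₀, H⟩ := dnf_core (1 / 2) (by norm_num) (by norm_num) K
  have h1 := hTo.bound (by positivity : 0 < δ / 2)
  have h2 := hPo.bound (by norm_num : (0 : ℝ) < 1 / 8)
  filter_upwards [h1, h2, eventually_ge_atTop n₀, eventually_ge_atTop 5] with n h1 h2 h3 h4
  intro N R hR dec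
  have hnR : (5 : ℝ) ≤ n := by exact_mod_cast h4
  have hlog : 1 ≤ Real.log n := by
    rw [Real.le_log_iff_exp_le (by linarith)]
    have := Real.exp_one_lt_d9
    linarith
  have h5 : (T n : ℝ) * Real.log (Real.log n * Real.log n) ≤ δ * Real.log n := by
    rw [Real.norm_eq_abs, Real.norm_eq_abs, abs_of_nonneg (by linarith : 0 ≤ Real.log n)] at h1
    have h6 : Real.log (Real.log n * Real.log n) = 2 * Real.log (Real.log n) := by
      rw [← sq, Real.log_pow]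
      norm_num
    rw [h6]
    have h7 := (le_abs_self _).trans h1
    linarith
  have h6 : (P n : ℝ) ≤ (n : ℝ) ^ ((1 - 1 / 2 : ℝ) * (Real.logb 2 ((n : ℝ) - 1) / 2)) := by
    rcases Nat.eq_zero_or_pos (P n) with hz | hp
    · rw [hz]
      simp only [Nat.cast_zero]
      positivity
    · have hpR : (0 : ℝ) < P n := by exact_mod_cast hp
      rw [← Real.log_le_log_iff hpR (by positivity), Real.log_rpow (by linarith)]
      have h7 : Real.log (P n) ≤ 1 / 8 * Real.log n ^ 2 := by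
        rw [Real.norm_eq_abs, Real.norm_eq_abs, abs_of_nonneg (by positivity :
          0 ≤ Real.log n ^ 2)] at h2
        exact (le_abs_self _).trans h2
      have h8 : Real.log n / 2 ≤ Real.logb 2 ((n : ℝ) - 1) := by
        have h9 : Real.log n / 2 ≤ Real.log ((n : ℝ) - 1) := by
          have h10 : (n : ℝ) ≤ ((n : ℝ) - 1) ^ 2 := by nlinarith
          have h11 := Real.log_le_log (by linarith) h10
          rw [Real.log_pow] at h11
          push_cast at h11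
          linarith
        have h10 : Real.log 2 ≤ 1 := by
          have := Real.log_two_lt_d9
          linarith
        have h11 : 0 < Real.log 2 := Real.log_pos (by norm_num)
        unfold Real.logb
        rw [le_div_iff₀ h11]
        nlinarith
      nlinarith
  obtain ⟨f, hf, hl⟩ := H n h3 n (T n) (P n) N h4 (hT n) h5 h6 R hR dec
  refine ⟨f, hf, ?_⟩
  have h7 : (-(1 / 6 : ℝ)) = -((1 / 2 : ℝ) / 3) := by norm_num
  rw [h7]
  exact hl

end Pool.Agent.W964.Wd
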